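import Pool.Agent.U728.Uplus.Weights

namespace Pool.Agent.U728.Uplus

open TensorProduct

set_option linter.unusedSimpArgs false
set_option linter.unnecessarySeqFocus false

variable {K : Type*} [Field K] {q : K}

/-- The operator `y ↦ - K_i(y) E_i`. -/
noncomputable def rhoOp (i : Bool) : Module.End K (UPlus K q) :=
  -((LinearMap.mulRight K (gen K q i)).comp (Kop i).toLinearMap)

theorem rhoOp_apply (i : Bool) (x : UPlus K q) : rhoOp i x = -(Kop i x * gen K q i) := rfl

theorem serre_rhoOp (hq : q ≠ 0) (i : Bool) :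
    serre q (rhoOp i : Module.End K (UPlus K q)) (rhoOp (!i)) = 0 := by
  have h := serre_gen (K := K) (q := q) i
  have k1 : Kop i (gen K q i) = q ^ 2 • gen K q i := by
    rw [Kop_gen]; simp only [pr, if_true]; norm_cast
  have k2 : Kop i (gen K q (!i)) = (q ^ 2)⁻¹ • gen K q (!i) := by
    rw [Kop_gen]
    have : pr i (!i) = -2 := by cases i <;> rfl
    rw [this, zpow_neg]; norm_cast
  have k3 : Kop (!i) (gen K q i) = (q ^ 2)⁻¹ • gen K q i := by
    rw [Kop_gen]
    have : pr (!i) i = -2 := by cases i <;> rfl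
    rw [this, zpow_neg]; norm_cast
  have hc : ∀ x : UPlus K q, Kop (!i) (Kop i x) = Kop i (Kop (!i) x) := by
    intro x
    induction x using induction_left with
    | one => simp only [map_one]
    | add x y hx hy => simp only [map_add, hx, hy]
    | smul c x hx => simp only [map_smul, hx]
    | mul k x hx =>
      simp only [map_mul, Kop_gen, map_smul, smul_smul, hx,
        mul_comm (q ^ pr i k) (q ^ pr (!i) k)]
  ext x
  have h2 : Kop i (Kop i (Kop i (Kop (!i) x))) * serre q (gen K q i) (gen K q (!i)) = 0 := by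
    rw [h, mul_zero]
  rw [LinearMap.zero_apply, ← neg_zero, ← h2]
  simp only [serre, qThree, pow_succ, pow_zero, one_mul, LinearMap.sub_apply, LinearMap.add_apply,
    LinearMap.smul_apply, Module.End.mul_apply, rhoOp_apply, map_neg, map_mul, k1, k2, k3, hc,
    neg_mul, neg_neg, smul_mul_assoc, mul_smul_comm, map_smul, mul_assoc, mul_sub, mul_add,
    smul_smul]
  match_scalars <;> field_simp <;> ring

/-- The representation `rho`. -/
noncomputable def rho (hq : q ≠ 0) : UPlus K q →ₐ[K] Module.End K (UPlus K q) :=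
  liftU rhoOp (serre_rhoOp hq)

/-- The braided antipode. -/
noncomputable def S (hq : q ≠ 0) : UPlus K q →ₗ[K] UPlus K q :=
  (LinearMap.applyₗ 1).comp (rho hq).toLinearMap

theorem S_one (hq : q ≠ 0) : S hq (1 : UPlus K q) = 1 := by simp [S]

theorem S_gen_mul (hq : q ≠ 0) (i : Bool) (x : UPlus K q) :
    S hq (gen K q i * x) = -(Kop i (S hq x) * gen K q i) := by
  simp [S, rho, liftU_gen, rhoOp_apply]

/-- The map `a ⊗ b ↦ a S(b)`. -/
noncomputable def mu (hq : q ≠ 0) : UPlus K q ⊗[K] UPlus K q →ₗ[K] UPlus K q :=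
  TensorProduct.lift ((LinearMap.mul K (UPlus K q)).compl₂ (S hq))

theorem mu_tmul (hq : q ≠ 0) (x y : UPlus K q) : mu hq (x ⊗ₜ[K] y) = x * S hq y := by
  simp [mu]

theorem mu_Dl (hq : q ≠ 0) (x : UPlus K q) : mu hq (Dl hq x) = eps x • 1 := by
  induction x using induction_left with
  | one => simp [Dl_one, mu_tmul, S_one]
  | add x y hx hy => rw [map_add, map_add, hx, hy, map_add, add_smul]
  | smul c x hx => rw [map_smul, map_smul, hx, map_smul, smul_assoc]
  | mul i x hx =>
    have h1 : ∀ T : UPlus K q ⊗[K] UPlus K q, mu hq (aOp i T) = gen K q i * mu hq T := by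
      intro T
      induction T with
      | zero => simp
      | tmul x y => rw [aOp_tmul, mu_tmul, mu_tmul, mul_assoc]
      | add x y hx hy => rw [map_add, map_add, map_add, hx, hy, mul_add]
    have h2 : ∀ T : UPlus K q ⊗[K] UPlus K q,
        mu hq (bOp i T) = -(Kop i (mu hq T) * gen K q i) := by
      intro T
      induction T with
      | zero => simp
      | tmul x y =>
        rw [bOp_tmul, mu_tmul, mu_tmul, S_gen_mul, map_mul, mul_neg, mul_assoc]
      | add x y hx hy => rw [map_add, map_add, map_add, map_add, hx, hy, add_mul, neg_add]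
    rw [Dl_gen_mul, map_add, h1, h2, hx, map_mul, eps_gen, zero_mul, zero_smul, map_smul, map_one]
    simp

/-- The exponent of the antipode on a weight space. -/
def ex (g : ℕ × ℕ) : ℤ := ((g.1 : ℤ) - g.2) ^ 2 - (g.1 + g.2)

theorem ex_wi_add (i : Bool) (g : ℕ × ℕ) : ex (wi i + g) = ex g + pw i g := by
  cases i <;> simp [ex, wi, pw] <;> ring

theorem S_word (hq : q ≠ 0) (w : List Bool) :
    S hq (word w : UPlus K q) = ((-1) ^ w.length * q ^ ex (wt w)) • word w.reverse := by
  induction w with
  | nil => simp [S_one, wt_nil, ex]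
  | cons i w ih =>
    have h1 : (word w.reverse * gen K q i : UPlus K q) = word (i :: w).reverse := by
      rw [List.reverse_cons, word_append]; simp
    rw [word_cons, S_gen_mul, ih, map_smul, Kop_of_mem hq i (word_mem_W w.reverse), wt_reverse,
      wt_cons, ex_wi_add, smul_mul_assoc, smul_mul_assoc, h1, smul_smul, ← neg_smul]
    congr 1
    rw [List.length_cons, pow_succ, zpow_add₀ hq]
    ring

theorem S_S (hq : q ≠ 0) {g : ℕ × ℕ} {x : UPlus K q}
    (hx : x ∈ (W g : Submodule K (UPlus K q))) : S hq (S hq x) = q ^ (2 * ex g) • x := by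
  induction hx using W_induction with
  | mem w hw =>
    rw [S_word, map_smul, S_word, List.reverse_reverse, smul_smul, List.length_reverse,
      wt_reverse, hw]
    congr 1
    have : ((-1 : K) ^ w.length) * (-1) ^ w.length = 1 := by
      rw [← mul_pow]; simp
    calc _ = ((-1 : K) ^ w.length * (-1) ^ w.length) * (q ^ ex g * q ^ ex g) := by ring
      _ = _ := by rw [this, one_mul, ← zpow_add₀ hq, two_mul]
  | zero => simp
  | add x y _ _ hx hy => rw [map_add, map_add, hx, hy, smul_add]
  | smul c x _ hx => rw [map_smul, map_smul, hx, smul_comm]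

/-- Primitive elements: the exponent must vanish. -/
theorem primitive_eq_zero (hq : q ≠ 0) (hq1 : ∀ n : ℕ, 0 < n → q ^ n ≠ 1) {g : ℕ × ℕ}
    {x : UPlus K q} (hx : x ∈ (W g : Submodule K (UPlus K q)))
    (hD : Dl hq x = x ⊗ₜ[K] 1 + 1 ⊗ₜ[K] x) (he : eps x = 0) (hg : ex g ≠ 0) : x = 0 := by
  have h1 := mu_Dl hq x
  rw [hD, map_add, mu_tmul, mu_tmul, S_one, mul_one, one_mul, he, zero_smul] at h1
  have h2 : S hq x = -x := by
    rw [add_comm] at h1
    exact eq_neg_of_add_eq_zero_left h1
  have h3 := S_S hq hx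
  rw [h2, map_neg, h2, neg_neg] at h3
  have h4 : (q ^ (2 * ex g) - 1) • x = 0 := by
    rw [sub_smul, one_smul, ← h3, sub_self]
  rcases smul_eq_zero.mp h4 with h5 | h5
  · exfalso
    have h6 : q ^ (2 * ex g) = 1 := sub_eq_zero.mp h5
    have h7 : (2 * ex g).natAbs ≠ 0 := by omega
    apply hq1 (2 * ex g).natAbs (Nat.pos_of_ne_zero h7)
    rcases Int.natAbs_eq (2 * ex g) with h8 | h8
    · rw [h8, zpow_natCast] at h6
      exact h6
    · rw [h8, zpow_neg, zpow_natCast, inv_eq_one] at h6
      exact h6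
  · exact h5

end Pool.Agent.U728.Uplus
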