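import Mathlib

namespace Pool.Agent.U728.Uplus

open TensorProduct

/-- The quantum integer `[3]_q = q^2 + 1 + q^(-2)`. -/
def qThree {K : Type*} [Field K] (q : K) : K := q ^ 2 + 1 + (q ^ 2)⁻¹

/-- The cubic `q`-Serre expression
`X^3 Y - [3]_q X^2 Y X + [3]_q X Y X^2 - Y X^3` in an algebra. -/
def serre {K : Type*} [Field K] (q : K) {B : Type*} [Ring B] [Algebra K B] (X Y : B) : B :=
  X ^ 3 * Y - qThree q • (X ^ 2 * Y * X) + qThree q • (X * Y * X ^ 2) - Y * X ^ 3

/-- The two `q`-Serre relations on the free algebra with generators `A` (index `false`) and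
`A^*` (index `true`). -/
inductive SerreRel (K : Type*) [Field K] (q : K) :
    FreeAlgebra K Bool → FreeAlgebra K Bool → Prop
  | fst : SerreRel K q (serre q (FreeAlgebra.ι K false) (FreeAlgebra.ι K true)) 0
  | snd : SerreRel K q (serre q (FreeAlgebra.ι K true) (FreeAlgebra.ι K false)) 0

/-- The algebra `U^+`: generated by two elements subject to the two `q`-Serre relations. -/
def UPlus (K : Type*) [Field K] (q : K) : Type _ := RingQuot (SerreRel K q)

noncomputable instance (K : Type*) [Field K] (q : K) : Ring (UPlus K q) :=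
  inferInstanceAs (Ring (RingQuot (SerreRel K q)))

noncomputable instance (K : Type*) [Field K] (q : K) : Algebra K (UPlus K q) :=
  inferInstanceAs (Algebra K (RingQuot (SerreRel K q)))

section general

variable {K : Type*} [Field K] {q : K} {B : Type*} [Ring B] [Algebra K B]

theorem serre_map {C : Type*} [Ring C] [Algebra K C] (f : B →ₐ[K] C) (X Y : B) :
    f (serre q X Y) = serre q (f X) (f Y) := by
  simp [serre]

theorem serre_smul (a b : K) (X Y : B) :
    serre q (a • X) (b • Y) = (a ^ 3 * b) • serre q X Y := by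
  simp only [serre, smul_pow, smul_mul_smul_comm, smul_sub, smul_add, smul_smul]
  congr 1
  · congr 1
    · congr 2
      ring
    · congr 1
      ring
  · congr 1
    ring

/-- Expression of the Serre element through iterated `q`-commutators. -/
theorem serre_eq (hq : q ≠ 0) (X Y : B) {Z1 Z2 : B}
    (h1 : Z1 = X * Y - (q ^ 2)⁻¹ • (Y * X)) (h2 : Z2 = X * Z1 - Z1 * X) :
    serre q X Y = X * Z2 - q ^ 2 • (Z2 * X) := by
  subst h1
  subst h2
  simp only [serre, qThree, mul_sub, sub_mul, mul_assoc, pow_succ, pow_zero, one_mul,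
    smul_mul_assoc, mul_smul_comm]
  match_scalars <;> field_simp <;> ring

/-- The key computation behind the braided comultiplication. -/
theorem serre_add (hq : q ≠ 0) {a0 a1 b0 b1 : B}
    (h00 : b0 * a0 = q ^ 2 • (a0 * b0)) (h01 : b0 * a1 = (q ^ 2)⁻¹ • (a1 * b0))
    (h10 : b1 * a0 = (q ^ 2)⁻¹ • (a0 * b1))
    (ha : serre q a0 a1 = 0) (hb : serre q b0 b1 = 0) :
    serre q (a0 + b0) (a1 + b1) = 0 := by
  have h00' : ∀ x, b0 * (a0 * x) = q ^ 2 • (a0 * (b0 * x)) := fun x => by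
    rw [← mul_assoc, h00, smul_mul_assoc, mul_assoc]
  have h01' : ∀ x, b0 * (a1 * x) = (q ^ 2)⁻¹ • (a1 * (b0 * x)) := fun x => by
    rw [← mul_assoc, h01, smul_mul_assoc, mul_assoc]
  have h10' : ∀ x, b1 * (a0 * x) = (q ^ 2)⁻¹ • (a0 * (b1 * x)) := fun x => by
    rw [← mul_assoc, h10, smul_mul_assoc, mul_assoc]
  set e1 := a0 * a1 - (q ^ 2)⁻¹ • (a1 * a0) with he1
  set f1 := b0 * b1 - (q ^ 2)⁻¹ • (b1 * b0) with hf1
  set e2 := a0 * e1 - e1 * a0 with he2
  set f2 := b0 * f1 - f1 * b0 with hf2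
  have ha' : a0 * e2 - q ^ 2 • (e2 * a0) = 0 := by rw [← serre_eq hq a0 a1 he1 he2, ha]
  have hb' : b0 * f2 - q ^ 2 • (f2 * b0) = 0 := by rw [← serre_eq hq b0 b1 hf1 hf2, hb]
  have k1 : b0 * e1 = e1 * b0 := by
    simp only [he1, mul_sub, sub_mul, mul_assoc, smul_mul_assoc, mul_smul_comm, h00', h01', h00,
      h01]
    match_scalars <;> field_simp
  have k2 : f1 * a0 = a0 * f1 := by
    simp only [hf1, mul_sub, sub_mul, mul_assoc, smul_mul_assoc, mul_smul_comm, h00', h10', h00,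
      h10]
    match_scalars <;> field_simp
  have k1' : ∀ x, b0 * (e1 * x) = e1 * (b0 * x) := fun x => by
    rw [← mul_assoc, k1, mul_assoc]
  have k2' : ∀ x, f1 * (a0 * x) = a0 * (f1 * x) := fun x => by
    rw [← mul_assoc, k2, mul_assoc]
  have k3 : b0 * e2 = q ^ 2 • (e2 * b0) := by
    simp only [he2, mul_sub, sub_mul, mul_assoc, smul_mul_assoc, mul_smul_comm, h00', k1', h00,
      k1]
    match_scalars <;> field_simp
  have k4 : f2 * a0 = q ^ 2 • (a0 * f2) := by
    simp only [hf2, mul_sub, sub_mul, mul_assoc, smul_mul_assoc, mul_smul_comm, h00', k2', h00,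
      k2]
    match_scalars <;> field_simp
  have z1 : (a0 + b0) * (a1 + b1) - (q ^ 2)⁻¹ • ((a1 + b1) * (a0 + b0)) =
      e1 + f1 + (1 - (q ^ 2)⁻¹ ^ 2) • (a0 * b1) := by
    simp only [he1, hf1, mul_add, add_mul, mul_assoc, h01, h10]
    match_scalars <;> field_simp <;> ring
  have z2 : (a0 + b0) * (e1 + f1 + (1 - (q ^ 2)⁻¹ ^ 2) • (a0 * b1)) -
      (e1 + f1 + (1 - (q ^ 2)⁻¹ ^ 2) • (a0 * b1)) * (a0 + b0) =
      e2 + f2 + (1 - (q ^ 2)⁻¹ ^ 2) • ((1 - (q ^ 2)⁻¹) • (a0 * (a0 * b1)) +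
        q ^ 2 • (a0 * f1)) := by
    simp only [he2, hf2, mul_add, add_mul, mul_assoc, smul_mul_assoc, mul_smul_comm, h00', k1, k2,
      h10]
    simp only [hf1, mul_sub, mul_smul_comm]
    match_scalars <;> field_simp <;> ring
  rw [serre_eq hq (a0 + b0) (a1 + b1) rfl rfl, z1, z2]
  have ha2 : a0 * e2 = q ^ 2 • (e2 * a0) := sub_eq_zero.mp ha'
  have hb2 : b0 * f2 = q ^ 2 • (f2 * b0) := sub_eq_zero.mp hb'
  simp only [mul_add, add_mul, mul_assoc, smul_mul_assoc, mul_smul_comm, h00', h10', k2, k3, k4,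
    ha2, hb2, h00, h10, k2']
  simp only [hf2, hf1, mul_sub, sub_mul, mul_smul_comm, smul_mul_assoc, mul_assoc]
  match_scalars <;> field_simp <;> ring

end general

end Pool.Agent.U728.Uplus
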