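import Pool.Agent.U728.Uplus.Nondeg

namespace Pool.Agent.U728.Uplus

open TensorProduct

set_option linter.unusedSimpArgs false
set_option linter.unnecessarySeqFocus false

variable {K : Type*} [Field K] {q : K}

theorem rD_iter_mul_gen (hq : q ≠ 0) (i : Bool) (x : UPlus K q) (j : ℕ) :
    (rD hq i)^[j + 1] (x * gen K q i) =
      q ^ (2 * (j + 1)) • ((rD hq i)^[j + 1] x * gen K q i) + qn q (j + 1) • (rD hq i)^[j] x := by
  induction j with
  | zero =>
    simp only [zero_add, Function.iterate_one, Function.iterate_zero, id_eq]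
    rw [rD_mul, Kop_gen_self, rD_gen, if_pos rfl, mul_smul_comm]
    simp [qn]
  | succ j ih =>
    rw [Function.iterate_succ_apply', ih, map_add, map_smul, map_smul, rD_mul, Kop_gen_self,
      rD_gen, if_pos rfl, mul_one, mul_smul_comm, qn_succ q (j + 1),
      ← Function.iterate_succ_apply' (rD hq i) (j + 1) x,
      ← Function.iterate_succ_apply' (rD hq i) j x, smul_add, smul_smul, add_smul]
    have : q ^ (2 * (j + 1)) * q ^ 2 = q ^ (2 * (j + 1 + 1)) := by rw [← pow_add]; congr 1
    rw [this]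
    abel

theorem qn_succ' (q : K) (j : ℕ) : qn q (j + 1) = 1 + q ^ 2 * qn q j := by
  induction j with
  | zero => simp [qn]
  | succ j ih =>
    rw [qn_succ, ih]
    linear_combination (-(q ^ 2)) * qn_mul q j

theorem rD_iter_gen_mul (hq : q ≠ 0) (i : Bool) (x : UPlus K q) (j : ℕ) :
    (rD hq i)^[j + 1] (gen K q i * x) =
      gen K q i * (rD hq i)^[j + 1] x + qn q (j + 1) • Kop i ((rD hq i)^[j] x) := by
  induction j with
  | zero =>
    simp only [zero_add, Function.iterate_one, Function.iterate_zero, id_eq]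
    rw [rD_gen_mul, if_pos rfl]
    simp [qn]
  | succ j ih =>
    have h2 : q ^ pr i i = q ^ 2 := by simp only [pr, if_true]; norm_cast
    rw [Function.iterate_succ_apply', ih, map_add, map_smul, rD_gen_mul, if_pos rfl, rD_Kop,
      ← Function.iterate_succ_apply' (rD hq i) (j + 1) x,
      ← Function.iterate_succ_apply' (rD hq i) j x, qn_succ' q (j + 1), add_smul, one_smul,
      smul_smul, h2, mul_comm (qn q (j + 1)) (q ^ 2), add_assoc]

theorem zpow_eq_one (hq1 : ∀ n : ℕ, 0 < n → q ^ n ≠ 1) {e : ℤ} (h : q ^ e = 1) : e = 0 := by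
  by_contra h0
  have h7 : e.natAbs ≠ 0 := by omega
  apply hq1 e.natAbs (Nat.pos_of_ne_zero h7)
  rcases Int.natAbs_eq e with h8 | h8
  · rw [h8, zpow_natCast] at h
    exact h
  · rw [h8, zpow_neg, zpow_natCast, inv_eq_one] at h
    exact h

theorem rD_iter_mem (hq : q ≠ 0) (i : Bool) {m n : ℕ} {x : UPlus K q}
    (hx : x ∈ (W (wp i m n) : Submodule K (UPlus K q))) {j : ℕ} (hj : j ≤ m) :
    (rD hq i)^[j] x ∈ (W (wp i (m - j) n) : Submodule K (UPlus K q)) := by
  induction j with
  | zero => exact hx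
  | succ j ih =>
    rw [Function.iterate_succ_apply']
    apply rD_mem hq i
    rw [wi_add_wp]
    have : m - (j + 1) + 1 = m - j := by omega
    rw [this]
    exact ih (by omega)

theorem rD_iter_eq_zero (hq : q ≠ 0) (i : Bool) {m n : ℕ} {x : UPlus K q}
    (hx : x ∈ (W (wp i m n) : Submodule K (UPlus K q))) : (rD hq i)^[m + 1] x = 0 := by
  rw [Function.iterate_succ_apply']
  apply rD_eq_zero hq i (rD_iter_mem hq i hx le_rfl)
  rw [Nat.sub_self, co_wp]

/-- Homogeneous elements commuting with `E_i`. -/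
theorem commute_gen (hq : q ≠ 0) (hq1 : ∀ n : ℕ, 0 < n → q ^ n ≠ 1) (i : Bool) {m n : ℕ}
    {z : UPlus K q} (hz : z ∈ (W (wp i m n) : Submodule K (UPlus K q))) (h0 : z ≠ 0)
    (hc : z * gen K q i = gen K q i * z) : n ≤ m ∧ (m = n → rD hq i z = 0) := by
  classical
  have hex : ∃ d, (rD hq i)^[d + 1] z = 0 := ⟨m, rD_iter_eq_zero hq i hz⟩
  set d := Nat.find hex with hd
  have hd1 : (rD hq i)^[d + 1] z = 0 := Nat.find_spec hex
  have hdm : d ≤ m := Nat.find_min' hex (rD_iter_eq_zero hq i hz)
  have hd2 : (rD hq i)^[d] z ≠ 0 := by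
    cases hd' : d with
    | zero => exact h0
    | succ e =>
      intro h
      have := Nat.find_min' hex h
      omega
  have h1 := rD_iter_mul_gen hq i z d
  have h2 := rD_iter_gen_mul hq i z d
  rw [hc, h2, hd1, mul_zero, zero_mul, smul_zero, zero_add, zero_add] at h1
  have h3 : Kop i ((rD hq i)^[d] z) = (rD hq i)^[d] z :=
    smul_right_injective _ (qn_ne_zero hq1 (Nat.succ_pos d)) h1
  rw [Kop_of_mem hq i (rD_iter_mem hq i hz hdm), pw_wp] at h3
  have h4 : (q ^ (2 * (((m - d : ℕ) : ℤ) - n)) - 1) • (rD hq i)^[d] z = 0 := by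
    rw [sub_smul, one_smul, h3, sub_self]
  rcases smul_eq_zero.mp h4 with h5 | h5
  · have h6 := zpow_eq_one hq1 (sub_eq_zero.mp h5)
    refine ⟨by omega, fun hmn => ?_⟩
    have hd0 : d = 0 := by omega
    rw [hd0] at hd1
    simpa using hd1
  · exact absurd h5 hd2

/-- A nonzero homogeneous central element has weight zero. -/
theorem weight_of_central (hq : q ≠ 0) (hq1 : ∀ n : ℕ, 0 < n → q ^ n ≠ 1) {g : ℕ × ℕ}
    {z : UPlus K q} (hz : z ∈ (W g : Submodule K (UPlus K q))) (h0 : z ≠ 0)
    (hc : ∀ i, z * gen K q i = gen K q i * z) : g = 0 := by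
  have h1 := commute_gen hq hq1 false (m := g.1) (n := g.2) hz h0 (hc false)
  have h2 := commute_gen hq hq1 true (m := g.2) (n := g.1) hz h0 (hc true)
  have h3 : g.1 = g.2 := le_antisymm h2.1 h1.1
  have hr : ∀ j, rD hq j z = 0 := by
    intro j
    cases j
    · exact h1.2 h3
    · exact h2.2 h3.symm
  by_contra hg
  have hpos : 0 < g.1 + g.2 := by
    rcases Nat.eq_zero_or_pos (g.1 + g.2) with h | h
    · exfalso
      apply hg
      apply Prod.ext
      · change g.1 = 0; omega
      · change g.2 = 0; omega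
    · exact h
  exact h0 (nondeg hq hq1 _ g hpos rfl z hz hr)

theorem exists_of_mem_W_zero {x : UPlus K q} (hx : x ∈ (W 0 : Submodule K (UPlus K q))) :
    ∃ c : K, x = c • 1 := by
  induction hx using W_induction with
  | mem w hw =>
    refine ⟨1, ?_⟩
    cases w with
    | nil => simp
    | cons i w =>
      exfalso
      rw [wt_cons] at hw
      cases i
      · have := congrArg Prod.fst hw
        simp [wi] at this
      · have := congrArg Prod.snd hw
        simp [wi] at this
  | zero => exact ⟨0, by simp⟩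
  | add x y _ _ hx hy =>
    obtain ⟨c, rfl⟩ := hx
    obtain ⟨d, rfl⟩ := hy
    exact ⟨c + d, by rw [add_smul]⟩
  | smul c x _ hx =>
    obtain ⟨d, rfl⟩ := hx
    exact ⟨c * d, by rw [smul_smul]⟩

/-- Elements commuting with both generators are scalars. -/
theorem scalar_of_commute (hq : q ≠ 0) (hq1 : ∀ n : ℕ, 0 < n → q ^ n ≠ 1)
    {z : UPlus K q} (hc : ∀ i, z * gen K q i = gen K q i * z) : ∃ c : K, z = c • 1 := by
  have hcomp : ∀ g : ℕ × ℕ, g ≠ 0 → comp g z = 0 := by
    intro g hg
    by_contra h0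
    apply hg
    apply weight_of_central hq hq1 (comp_mem g z) h0
    intro i
    rw [← comp_mul_gen, ← comp_gen_mul, hc i, add_comm g (wi i)]
  have h1 : z - comp 0 z = 0 := by
    apply eq_zero_of_comp
    intro g
    rw [map_sub, comp_of_mem (comp_mem 0 z)]
    split_ifs with h
    · rw [← h, sub_self]
    · rw [hcomp g (Ne.symm h), sub_zero]
  obtain ⟨c, hc⟩ := exists_of_mem_W_zero (comp_mem (K := K) (q := q) 0 z)
  exact ⟨c, by rw [← hc]; exact sub_eq_zero.mp h1⟩

/-- The center of `U^+` consists of the scalars. -/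
theorem center_eq_bot (hq : q ≠ 0) (hq1 : ∀ n : ℕ, 0 < n → q ^ n ≠ 1) :
    Subalgebra.center K (UPlus K q) = ⊥ := by
  rw [eq_bot_iff]
  intro z hz
  rw [Subalgebra.mem_center_iff] at hz
  obtain ⟨c, rfl⟩ := scalar_of_commute hq hq1 (fun i => (hz (gen K q i)).symm)
  rw [Algebra.mem_bot]
  exact ⟨c, by rw [Algebra.algebraMap_eq_smul_one]⟩

theorem algebraMap_injective : Function.Injective (algebraMap K (UPlus K q)) := by
  intro a b hab
  have h := congrArg (eps (K := K) (q := q)) hab
  simpa using h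

end Pool.Agent.U728.Uplus
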