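import Pool.Agent.U728.Uplus.Struct

namespace Pool.Agent.U728.Uplus

open TensorProduct

set_option linter.unusedSimpArgs false
set_option linter.unnecessarySeqFocus false

variable {K : Type*} [Field K] {q : K}

theorem serre_ab (hq : q ≠ 0) (i : Bool) :
    serre q (aOp i + bOp i : Module.End K (UPlus K q ⊗[K] UPlus K q))
      (aOp (!i) + bOp (!i)) = 0 := by
  apply serre_add hq
  · rw [bOp_mul_aOp]
    simp only [pr, if_true]
    norm_cast
  · rw [bOp_mul_aOp]
    have : pr i (!i) = -2 := by cases i <;> rfl
    rw [this, zpow_neg]
    norm_cast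
  · rw [bOp_mul_aOp]
    have : pr (!i) i = -2 := by cases i <;> rfl
    rw [this, zpow_neg]
    norm_cast
  · exact serre_aOp i
  · exact serre_bOp i

/-- The action of `U^+` on `U^+ ⊗ U^+` through the braided comultiplication. -/
noncomputable def act (hq : q ≠ 0) : UPlus K q →ₐ[K] Module.End K (UPlus K q ⊗[K] UPlus K q) :=
  liftU (fun i => aOp i + bOp i) (serre_ab hq)

/-- The braided comultiplication. -/
noncomputable def Dl (hq : q ≠ 0) : UPlus K q →ₗ[K] UPlus K q ⊗[K] UPlus K q :=
  (LinearMap.applyₗ (1 ⊗ₜ[K] 1)).comp (act hq).toLinearMap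

theorem Dl_one (hq : q ≠ 0) : Dl hq (1 : UPlus K q) = 1 ⊗ₜ[K] 1 := by
  simp [Dl]

theorem Dl_gen_mul (hq : q ≠ 0) (i : Bool) (x : UPlus K q) :
    Dl hq (gen K q i * x) = aOp i (Dl hq x) + bOp i (Dl hq x) := by
  simp [Dl, act, liftU_gen]

/-- The counit. -/
noncomputable def eps : UPlus K q →ₐ[K] K := liftU (fun _ => 0) (by intro i; simp [serre])

theorem eps_gen (i : Bool) : eps (gen K q i) = 0 := by rw [eps, liftU_gen]

/-- The map to the dual numbers picking the coefficient of the generator `j`. -/
noncomputable def chi (j : Bool) : UPlus K q →ₐ[K] DualNumber K :=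
  liftU (fun i => if i = j then DualNumber.eps else 0) (by
    intro i
    cases i <;> cases j <;> simp [serre])

theorem chi_gen (i j : Bool) : chi j (gen K q i) = if i = j then DualNumber.eps else 0 := by
  rw [chi, liftU_gen]

theorem fst_chi (j : Bool) (x : UPlus K q) : (chi j x).fst = eps x := by
  induction x using induction_left with
  | one => simp
  | add x y hx hy => simp [hx, hy]
  | smul c x hx => simp [hx]
  | mul i x hx =>
    rw [map_mul, map_mul, TrivSqZeroExt.fst_mul, chi_gen, eps_gen, zero_mul]
    split_ifs <;> simp

/-- The coefficient of the generator `j`. -/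
noncomputable def epj (j : Bool) : UPlus K q →ₗ[K] K :=
  (TrivSqZeroExt.sndHom K K).comp (chi j).toLinearMap

theorem epj_one (j : Bool) : epj j (1 : UPlus K q) = 0 := by
  simp [epj]

theorem epj_gen_mul (i j : Bool) (x : UPlus K q) :
    epj j (gen K q i * x) = if i = j then eps x else 0 := by
  have h := fst_chi j x
  simp only [epj, LinearMap.comp_apply, AlgHom.toLinearMap_apply, map_mul, chi_gen,
    TrivSqZeroExt.sndHom_apply, TrivSqZeroExt.snd_mul]
  split_ifs with hij
  · simp [h]
  · simp

theorem eps_Kop (i : Bool) (x : UPlus K q) : eps (Kop i x) = eps x := by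
  induction x using induction_left with
  | one => simp
  | add x y hx hy => simp [hx, hy]
  | smul c x hx => simp [hx]
  | mul i x hx => simp [Kop_gen, eps_gen]

theorem epj_Kop (i j : Bool) (x : UPlus K q) : epj j (Kop i x) = q ^ pr i j * epj j x := by
  induction x using induction_left with
  | one => simp [epj_one]
  | add x y hx hy => simp [hx, hy, mul_add]
  | smul c x hx => simp [hx, mul_left_comm]
  | mul k x hx =>
    rw [map_mul, Kop_gen, smul_mul_assoc, map_smul, epj_gen_mul, epj_gen_mul, eps_Kop]
    split_ifs with h
    · subst h; rfl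
    · simp

/-- Apply a functional to the right tensor factor. -/
noncomputable def sR (f : UPlus K q →ₗ[K] K) : UPlus K q ⊗[K] UPlus K q →ₗ[K] UPlus K q :=
  (TensorProduct.rid K (UPlus K q)).toLinearMap.comp (LinearMap.lTensor (UPlus K q) f)

/-- Apply a functional to the left tensor factor. -/
noncomputable def sL (f : UPlus K q →ₗ[K] K) : UPlus K q ⊗[K] UPlus K q →ₗ[K] UPlus K q :=
  (TensorProduct.lid K (UPlus K q)).toLinearMap.comp (LinearMap.rTensor (UPlus K q) f)

@[simp] theorem sR_tmul (f : UPlus K q →ₗ[K] K) (x y : UPlus K q) :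
    sR f (x ⊗ₜ[K] y) = f y • x := by simp [sR]

@[simp] theorem sL_tmul (f : UPlus K q →ₗ[K] K) (x y : UPlus K q) :
    sL f (x ⊗ₜ[K] y) = f x • y := by simp [sL]

theorem eq_zero_of_sL {T : UPlus K q ⊗[K] UPlus K q} (h : ∀ f, sL f T = 0) : T = 0 := by
  classical
  let b := Module.Basis.ofVectorSpace K (UPlus K q)
  apply (TensorProduct.equivFinsuppOfBasisLeft (N := UPlus K q) b).injective
  rw [map_zero]
  ext i
  rw [TensorProduct.equivFinsuppOfBasisLeft_apply]
  exact h (b.coord i)

theorem counit_right (hq : q ≠ 0) (x : UPlus K q) : sR eps.toLinearMap (Dl hq x) = x := by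
  induction x using induction_left with
  | one => simp [Dl_one]
  | add x y hx hy => rw [map_add, map_add, hx, hy]
  | smul c x hx => rw [map_smul, map_smul, hx]
  | mul i x hx =>
    rw [Dl_gen_mul, map_add]
    have h1 : ∀ T : UPlus K q ⊗[K] UPlus K q,
        sR eps.toLinearMap (aOp i T) = gen K q i * sR eps.toLinearMap T := by
      intro T
      induction T with
      | zero => simp
      | tmul x y => simp [aOp_tmul]
      | add x y hx hy => rw [map_add, map_add, map_add, hx, hy, mul_add]
    have h2 : ∀ T : UPlus K q ⊗[K] UPlus K q, sR eps.toLinearMap (bOp i T) = 0 := by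
      intro T
      induction T with
      | zero => simp
      | tmul x y => simp [bOp_tmul, eps_gen]
      | add x y hx hy => rw [map_add, map_add, hx, hy, add_zero]
    rw [h1, h2, hx, add_zero]

theorem counit_left (hq : q ≠ 0) (x : UPlus K q) : sL eps.toLinearMap (Dl hq x) = x := by
  induction x using induction_left with
  | one => simp [Dl_one]
  | add x y hx hy => rw [map_add, map_add, hx, hy]
  | smul c x hx => rw [map_smul, map_smul, hx]
  | mul i x hx =>
    rw [Dl_gen_mul, map_add]
    have h1 : ∀ T : UPlus K q ⊗[K] UPlus K q, sL eps.toLinearMap (aOp i T) = 0 := by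
      intro T
      induction T with
      | zero => simp
      | tmul x y => simp [aOp_tmul, eps_gen]
      | add x y hx hy => rw [map_add, map_add, hx, hy, add_zero]
    have h2 : ∀ T : UPlus K q ⊗[K] UPlus K q,
        sL eps.toLinearMap (bOp i T) = gen K q i * sL eps.toLinearMap T := by
      intro T
      induction T with
      | zero => simp
      | tmul x y => simp [bOp_tmul, eps_Kop]
      | add x y hx hy => rw [map_add, map_add, map_add, hx, hy, mul_add]
    rw [h1, h2, hx, zero_add]

/-- The right skew derivation `r_j`. -/
noncomputable def rD (hq : q ≠ 0) (j : Bool) : UPlus K q →ₗ[K] UPlus K q :=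
  (sR (epj j)).comp (Dl hq)

/-- The left skew derivation `_j r`. -/
noncomputable def lD (hq : q ≠ 0) (j : Bool) : UPlus K q →ₗ[K] UPlus K q :=
  (sL (epj j)).comp (Dl hq)

theorem rD_one (hq : q ≠ 0) (j : Bool) : rD hq j (1 : UPlus K q) = 0 := by
  simp [rD, Dl_one, epj_one]

theorem lD_one (hq : q ≠ 0) (j : Bool) : lD hq j (1 : UPlus K q) = 0 := by
  simp [lD, Dl_one, epj_one]

theorem rD_gen_mul (hq : q ≠ 0) (i j : Bool) (x : UPlus K q) :
    rD hq j (gen K q i * x) = gen K q i * rD hq j x + if i = j then Kop j x else 0 := by
  have h1 : ∀ T : UPlus K q ⊗[K] UPlus K q,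
      sR (epj j) (aOp i T) = gen K q i * sR (epj j) T := by
    intro T
    induction T with
    | zero => simp
    | tmul x y => simp [aOp_tmul]
    | add x y hx hy => rw [map_add, map_add, map_add, hx, hy, mul_add]
  have h2 : ∀ T : UPlus K q ⊗[K] UPlus K q,
      sR (epj j) (bOp i T) = if i = j then Kop j (sR eps.toLinearMap T) else 0 := by
    intro T
    induction T with
    | zero => simp
    | tmul x y =>
      rw [bOp_tmul, sR_tmul, epj_gen_mul, sR_tmul]
      split_ifs with h
      · subst h; simp
      · simp
    | add x y hx hy =>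
      rw [map_add, map_add, map_add, hx, hy]
      split_ifs
      · rw [map_add]
      · rw [add_zero]
  rw [rD, LinearMap.comp_apply, Dl_gen_mul, map_add, h1, h2, counit_right]
  rfl

theorem lD_gen_mul (hq : q ≠ 0) (i j : Bool) (x : UPlus K q) :
    lD hq j (gen K q i * x) = (if i = j then x else 0) + q ^ pr i j • (gen K q i * lD hq j x) := by
  have h1 : ∀ T : UPlus K q ⊗[K] UPlus K q,
      sL (epj j) (bOp i T) = q ^ pr i j • (gen K q i * sL (epj j) T) := by
    intro T
    induction T with
    | zero => simp
    | tmul x y => simp [bOp_tmul, epj_Kop, smul_smul]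
    | add x y hx hy => rw [map_add, map_add, map_add, hx, hy, mul_add, smul_add]
  have h2 : ∀ T : UPlus K q ⊗[K] UPlus K q,
      sL (epj j) (aOp i T) = if i = j then sL eps.toLinearMap T else 0 := by
    intro T
    induction T with
    | zero => simp
    | tmul x y =>
      rw [aOp_tmul, sL_tmul, epj_gen_mul, sL_tmul]
      split_ifs with h
      · rfl
      · simp
    | add x y hx hy =>
      rw [map_add, map_add, map_add, hx, hy]
      split_ifs
      · rfl
      · rw [add_zero]
  rw [lD, LinearMap.comp_apply, Dl_gen_mul, map_add, h1, h2, counit_left]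
  rfl

/-- Product rule for `r_j`. -/
theorem rD_mul (hq : q ≠ 0) (j : Bool) (x y : UPlus K q) :
    rD hq j (x * y) = rD hq j x * Kop j y + x * rD hq j y := by
  induction x using induction_left with
  | one => rw [one_mul, one_mul, rD_one, zero_mul, zero_add]
  | add x x' hx hx' => rw [add_mul, map_add, hx, hx', map_add, add_mul, add_mul]; abel
  | smul c x hx => rw [smul_mul_assoc, map_smul, hx, map_smul, smul_mul_assoc, smul_mul_assoc,
      smul_add]
  | mul i x hx =>
    rw [mul_assoc, rD_gen_mul, hx, rD_gen_mul, map_mul, mul_add, add_mul, ite_mul, zero_mul]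
    simp only [mul_assoc]
    abel

/-- Product rule for `_j r`. -/
theorem lD_mul (hq : q ≠ 0) (j : Bool) (x y : UPlus K q) :
    lD hq j (x * y) = lD hq j x * y + Kop j x * lD hq j y := by
  induction x using induction_left with
  | one => rw [one_mul, lD_one, zero_mul, zero_add, map_one, one_mul]
  | add x x' hx hx' =>
    rw [add_mul, map_add, hx, hx', map_add, add_mul, map_add, add_mul]; abel
  | smul c x hx => rw [smul_mul_assoc, map_smul, hx, map_smul, map_smul, smul_mul_assoc,
      smul_mul_assoc, smul_add]
  | mul i x hx =>
    rw [mul_assoc, lD_gen_mul, hx, lD_gen_mul, map_mul, Kop_gen, add_mul, ite_mul, zero_mul,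
      pr_comm j i, mul_add, smul_add]
    simp only [mul_assoc, smul_mul_assoc]
    abel

theorem rD_gen (hq : q ≠ 0) (i j : Bool) :
    rD hq j (gen K q i) = if i = j then 1 else 0 := by
  have h := rD_gen_mul hq i j 1
  rw [mul_one, rD_one, mul_zero, zero_add, map_one] at h
  exact h

theorem lD_gen (hq : q ≠ 0) (i j : Bool) :
    lD hq j (gen K q i) = if i = j then 1 else 0 := by
  have h := lD_gen_mul hq i j 1
  rw [mul_one, lD_one, mul_zero, smul_zero, add_zero] at h
  exact h

/-- Compatibility of the comultiplication with `r_j` on the right tensor factor. -/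
theorem lTensor_rD_Dl (hq : q ≠ 0) (j : Bool) (x : UPlus K q) :
    LinearMap.lTensor (UPlus K q) (rD hq j) (Dl hq x) = Dl hq (rD hq j x) := by
  have hK : ∀ x : UPlus K q,
      TensorProduct.map (Kop j).toLinearMap (Kop j).toLinearMap (Dl hq x) = Dl hq (Kop j x) := by
    intro x
    induction x using induction_left with
    | one => simp [Dl_one]
    | add x y hx hy => simp only [map_add, hx, hy]
    | smul c x hx => simp only [map_smul, hx]
    | mul i x hx =>
      have h1 : ∀ T : UPlus K q ⊗[K] UPlus K q,
          TensorProduct.map (Kop j).toLinearMap (Kop j).toLinearMap (aOp i T) =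
            q ^ pr j i • aOp i (TensorProduct.map (Kop j).toLinearMap (Kop j).toLinearMap T) := by
        intro T
        induction T with
        | zero => simp
        | tmul x y => simp [aOp_tmul, Kop_gen, TensorProduct.smul_tmul']
        | add x y hx hy => simp only [map_add, hx, hy, smul_add]
      have hc : ∀ i j : Bool, ∀ x : UPlus K q, Kop i (Kop j x) = Kop j (Kop i x) := by
        intro i j x
        induction x using induction_left with
        | one => simp only [map_one]
        | add x y hx hy => simp only [map_add, hx, hy]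
        | smul c x hx => simp only [map_smul, hx]
        | mul k x hx => simp only [map_mul, Kop_gen, map_smul, smul_smul, mul_comm, hx]
      have h2 : ∀ T : UPlus K q ⊗[K] UPlus K q,
          TensorProduct.map (Kop j).toLinearMap (Kop j).toLinearMap (bOp i T) =
            q ^ pr j i • bOp i (TensorProduct.map (Kop j).toLinearMap (Kop j).toLinearMap T) := by
        intro T
        induction T with
        | zero => simp
        | tmul x y => simp [bOp_tmul, Kop_gen, hc j i x]
        | add x y hx hy => simp only [map_add, hx, hy, smul_add]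
      rw [Dl_gen_mul, map_add, h1, h2, hx, map_mul, Kop_gen, smul_mul_assoc, map_smul,
        Dl_gen_mul, smul_add]
  induction x using induction_left with
  | one => simp [Dl_one, rD_one]
  | add x y hx hy => simp only [map_add, hx, hy]
  | smul c x hx => simp only [map_smul, hx]
  | mul i x hx =>
    have h1 : ∀ T : UPlus K q ⊗[K] UPlus K q,
        LinearMap.lTensor (UPlus K q) (rD hq j) (aOp i T) =
          aOp i (LinearMap.lTensor (UPlus K q) (rD hq j) T) := by
      intro T
      induction T with
      | zero => simp
      | tmul x y => simp [aOp_tmul]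
      | add x y hx hy => simp only [map_add, hx, hy]
    have h2 : ∀ T : UPlus K q ⊗[K] UPlus K q,
        LinearMap.lTensor (UPlus K q) (rD hq j) (bOp i T) =
          bOp i (LinearMap.lTensor (UPlus K q) (rD hq j) T) +
          if i = j then TensorProduct.map (Kop j).toLinearMap (Kop j).toLinearMap T else 0 := by
      intro T
      induction T with
      | zero => simp
      | tmul x y =>
        rw [bOp_tmul, LinearMap.lTensor_tmul, rD_gen_mul, LinearMap.lTensor_tmul, bOp_tmul,
          TensorProduct.tmul_add]
        split_ifs with h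
        · subst h; simp
        · simp
      | add x y hx hy =>
        simp only [map_add, hx, hy]
        split_ifs
        · abel
        · abel
    rw [Dl_gen_mul, map_add, h1, h2, hx, rD_gen_mul, map_add, Dl_gen_mul, hK]
    split_ifs
    · abel
    · simp

end Pool.Agent.U728.Uplus
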