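import Pool.Agent.U728.Uplus.Antipode

namespace Pool.Agent.U728.Uplus

open TensorProduct

set_option linter.unusedSimpArgs false
set_option linter.unnecessarySeqFocus false

variable {K : Type*} [Field K] {q : K}

theorem rD_sL (hq : q ≠ 0) (j : Bool) (f : UPlus K q →ₗ[K] K)
    (T : UPlus K q ⊗[K] UPlus K q) :
    rD hq j (sL f T) = sL f (LinearMap.lTensor (UPlus K q) (rD hq j) T) := by
  induction T with
  | zero => simp
  | tmul x y => simp
  | add x y hx hy => simp only [map_add, hx, hy]

/-- The span of the words of length strictly between `0` and `n`. -/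
noncomputable def Mid (n : ℕ) : Submodule K (UPlus K q) :=
  Submodule.span K {x | ∃ w : List Bool, 0 < w.length ∧ w.length < n ∧ word w = x}

theorem Mid_mono {m n : ℕ} (h : m ≤ n) :
    (Mid m : Submodule K (UPlus K q)) ≤ Mid n := by
  apply Submodule.span_mono
  rintro x ⟨w, h1, h2, rfl⟩
  exact ⟨w, h1, by omega, rfl⟩

theorem gen_mul_Mid {n : ℕ} {x : UPlus K q} (i : Bool)
    (hx : x ∈ (Mid n : Submodule K (UPlus K q))) :
    gen K q i * x ∈ (Mid (n + 1) : Submodule K (UPlus K q)) := by
  induction hx using Submodule.span_induction with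
  | mem x hx =>
    obtain ⟨w, h1, h2, rfl⟩ := hx
    exact Submodule.subset_span ⟨i :: w, by simp, by simp; omega, word_cons i w⟩
  | zero => rw [mul_zero]; exact zero_mem _
  | add x y _ _ hx hy => rw [mul_add]; exact add_mem hx hy
  | smul c x _ hx => rw [mul_smul_comm]; exact Submodule.smul_mem _ _ hx

theorem word_mem_Mid {n : ℕ} {w : List Bool} (h1 : w ≠ []) (h2 : w.length < n) :
    (word w : UPlus K q) ∈ (Mid n : Submodule K (UPlus K q)) :=
  Submodule.subset_span ⟨w, List.length_pos_iff.mpr h1, h2, rfl⟩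

theorem sL_Dl_gen_mul (hq : q ≠ 0) (i : Bool) (f : UPlus K q →ₗ[K] K) (x : UPlus K q) :
    sL f (Dl hq (gen K q i * x)) =
      sL (f.comp (LinearMap.mulLeft K (gen K q i))) (Dl hq x) +
      gen K q i * sL (f.comp (Kop i).toLinearMap) (Dl hq x) := by
  have h1 : ∀ T : UPlus K q ⊗[K] UPlus K q,
      sL f (aOp i T) = sL (f.comp (LinearMap.mulLeft K (gen K q i))) T := by
    intro T
    induction T with
    | zero => simp
    | tmul x y => simp [aOp_tmul]
    | add x y hx hy => simp only [map_add, hx, hy]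
  have h2 : ∀ T : UPlus K q ⊗[K] UPlus K q,
      sL f (bOp i T) = gen K q i * sL (f.comp (Kop i).toLinearMap) T := by
    intro T
    induction T with
    | zero => simp
    | tmul x y => simp [bOp_tmul]
    | add x y hx hy => simp only [map_add, hx, hy, mul_add]
  rw [Dl_gen_mul, map_add, h1, h2]

theorem sL_Dl_word (hq : q ≠ 0) (w : List Bool) (hw : w ≠ []) (f : UPlus K q →ₗ[K] K) :
    sL f (Dl hq (word w : UPlus K q)) - f (word w) • 1 - f 1 • word w ∈
      (Mid w.length : Submodule K (UPlus K q)) := by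
  induction w generalizing f with
  | nil => exact absurd rfl hw
  | cons i w ih =>
    by_cases hw' : w = []
    · subst hw'
      rw [word_cons, sL_Dl_gen_mul, word_nil, Dl_one, sL_tmul, sL_tmul]
      simp
    · have h1 := ih hw' (f.comp (LinearMap.mulLeft K (gen K q i)))
      have h2 := ih hw' (f.comp (Kop i).toLinearMap)
      have h3 := gen_mul_Mid i h2
      have h1' := Mid_mono (Nat.le_succ _) h1
      have h4 : (word w : UPlus K q) ∈ (Mid (w.length + 1) : Submodule K (UPlus K q)) :=
        word_mem_Mid hw' (Nat.lt_succ_self _)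
      have h5 : (gen K q i : UPlus K q) ∈ (Mid (w.length + 1) : Submodule K (UPlus K q)) := by
        have : (word [i] : UPlus K q) ∈ (Mid (w.length + 1) : Submodule K (UPlus K q)) :=
          word_mem_Mid (by simp) (by
            have := List.length_pos_iff.mpr hw'
            simp only [List.length_cons, List.length_nil]; omega)
        simpa using this
      rw [word_cons, sL_Dl_gen_mul, List.length_cons]
      have h6 := add_mem (add_mem (add_mem h1' h3)
        (Submodule.smul_mem _ (f (gen K q i)) h4)) (Submodule.smul_mem _ (f (Kop i (word w))) h5)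
      convert h6 using 1
      simp only [LinearMap.comp_apply, LinearMap.mulLeft_apply, AlgHom.toLinearMap_apply,
        map_one, mul_one, mul_sub, mul_smul_comm]
      abel

theorem sL_Dl_mem (hq : q ≠ 0) {g : ℕ × ℕ} (hg : g ≠ 0) {x : UPlus K q}
    (hx : x ∈ (W g : Submodule K (UPlus K q))) (f : UPlus K q →ₗ[K] K) :
    sL f (Dl hq x) - f x • 1 - f 1 • x ∈
      (Mid (g.1 + g.2) : Submodule K (UPlus K q)) := by
  induction hx using W_induction with
  | mem w hw =>
    have h := sL_Dl_word hq w (by rintro rfl; exact hg hw.symm) f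
    rw [length_eq, hw] at h
    exact h
  | zero => simp
  | add x y _ _ hx hy =>
    convert add_mem hx hy using 1
    simp only [map_add, add_smul, smul_add]
    abel
  | smul c x _ hx =>
    convert Submodule.smul_mem _ c hx using 1
    simp only [map_smul, smul_sub, smul_smul, smul_eq_mul, mul_comm c (f 1)]

theorem comp_Mid {n : ℕ} {x : UPlus K q} (hx : x ∈ (Mid n : Submodule K (UPlus K q)))
    {g : ℕ × ℕ} (hg : g.1 + g.2 = 0 ∨ n ≤ g.1 + g.2) : comp g x = 0 := by
  induction hx using Submodule.span_induction with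
  | mem x hx =>
    obtain ⟨w, h1, h2, rfl⟩ := hx
    rw [comp_word, if_neg]
    rintro rfl
    rw [← length_eq] at hg
    omega
  | zero => rw [map_zero]
  | add x y _ _ hx hy => rw [map_add, hx, hy, add_zero]
  | smul c x _ hx => rw [map_smul, hx, smul_zero]

theorem eps_of_mem {g : ℕ × ℕ} (hg : g ≠ 0) {x : UPlus K q}
    (hx : x ∈ (W g : Submodule K (UPlus K q))) : eps x = 0 := by
  induction hx using W_induction with
  | mem w hw =>
    cases w with
    | nil => exact absurd hw.symm hg
    | cons i w => rw [word_cons, map_mul, eps_gen, zero_mul]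
  | zero => simp
  | add x y _ _ hx hy => rw [map_add, hx, hy, add_zero]
  | smul c x _ hx => rw [map_smul, hx, smul_zero]

/-- The induction step: elements killed by both `r_j` are primitive. -/
theorem Dl_eq_of_killed (hq : q ≠ 0) {g : ℕ × ℕ} (hg : g ≠ 0) {x : UPlus K q}
    (hx : x ∈ (W g : Submodule K (UPlus K q))) (hr : ∀ j, rD hq j x = 0)
    (IH : ∀ g' : ℕ × ℕ, 0 < g'.1 + g'.2 → g'.1 + g'.2 < g.1 + g.2 →
      ∀ y ∈ (W g' : Submodule K (UPlus K q)), (∀ j, rD hq j y = 0) → y = 0) :
    Dl hq x = x ⊗ₜ[K] 1 + 1 ⊗ₜ[K] x := by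
  rw [← sub_eq_zero]
  apply eq_zero_of_sL
  intro f
  rw [map_sub, map_add, sL_tmul, sL_tmul, ← sub_sub]
  have hM := sL_Dl_mem hq hg hx f
  set y := sL f (Dl hq x) - f x • 1 - f 1 • x with hy
  have hry : ∀ j, rD hq j y = 0 := by
    intro j
    rw [hy, map_sub, map_sub, rD_sL, lTensor_rD_Dl, hr, map_smul, map_smul, hr, rD_one]
    simp
  apply eq_zero_of_comp
  intro g'
  by_cases h1 : g'.1 + g'.2 = 0
  · exact comp_Mid hM (Or.inl h1)
  by_cases h2 : g'.1 + g'.2 < g.1 + g.2
  · apply IH g' (Nat.pos_of_ne_zero h1) h2 _ (comp_mem g' y)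
    intro j
    by_cases h3 : co j g' = 0
    · exact rD_eq_zero hq j (comp_mem g' y) h3
    · obtain ⟨g'', rfl⟩ := exists_of_co h3
      rw [← comp_rD, hry, map_zero]
  · exact comp_Mid hM (Or.inr (by omega))

section partB

/-- The weight with coordinate `m` at `i` and `n` at the other index. -/
def wp (i : Bool) (m n : ℕ) : ℕ × ℕ := if i then (n, m) else (m, n)

theorem co_wp (i : Bool) (m n : ℕ) : co i (wp i m n) = m := by
  cases i <;> simp [co, wp]

theorem wi_add_wp (i : Bool) (m n : ℕ) : wi i + wp i m n = wp i (m + 1) n := by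
  cases i <;> simp [wi, wp, add_comm]

theorem wp_add_wi (i : Bool) (m n : ℕ) : wp i m n + wi i = wp i (m + 1) n := by
  cases i <;> simp [wi, wp, add_comm]

theorem wp_add_wi' (i : Bool) (m n : ℕ) : wp i m n + wi (!i) = wp i m (n + 1) := by
  cases i <;> simp [wi, wp, add_comm]

theorem pw_wp (i : Bool) (m n : ℕ) : pw i (wp i m n) = 2 * ((m : ℤ) - n) := by
  cases i <;> simp [pw, wp]

theorem exists_wp (i : Bool) (g : ℕ × ℕ) : ∃ m n, g = wp i m n := by
  cases i
  · exact ⟨g.1, g.2, rfl⟩
  · exact ⟨g.2, g.1, rfl⟩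

theorem wp_inj {i : Bool} {m n m' n' : ℕ} (h : wp i m n = wp i m' n') : m = m' ∧ n = n' := by
  cases i <;> simp [wp] at h <;> tauto

/-- If `M > 2n` then every element of weight `(M, n)` is right divisible by `E_i`. -/
theorem div_right (i : Bool) (n : ℕ) : ∀ M : ℕ, 2 * n < M + 1 → ∀ x : UPlus K q,
    x ∈ (W (wp i (M + 1) n) : Submodule K (UPlus K q)) →
    ∃ u ∈ (W (wp i M n) : Submodule K (UPlus K q)), x = u * gen K q i := by
  induction n with
  | zero =>
    intro M hM x hx
    induction hx using W_induction with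
    | mem w hw =>
      rcases List.eq_nil_or_concat w with rfl | ⟨w', j, rfl⟩
      · exfalso
        rw [wt_nil] at hw
        have : co i (wp i (M + 1) 0) = co i 0 := by rw [← hw]
        rw [co_wp] at this
        cases i <;> simp [co] at this
      · rw [List.concat_eq_append] at hw ⊢
        rw [wt_append, wt_cons, wt_nil, add_zero] at hw
        by_cases hj : j = i
        · subst hj
          refine ⟨word w', ?_, by rw [word_append]; simp⟩
          rw [← wp_add_wi] at hw
          exact word_mem_W' (add_right_cancel hw)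
        · exfalso
          have hj' : j = !i := by cases i <;> cases j <;> simp_all
          subst hj'
          have h1 : co (!i) (wt w' + wi (!i)) = co (!i) (wp i (M + 1) 0) := by rw [hw]
          cases i <;> simp [co, wi, wp] at h1
    | zero => exact ⟨0, zero_mem _, by simp⟩
    | add x y _ _ hx hy =>
      obtain ⟨u, hu, rfl⟩ := hx
      obtain ⟨v, hv, rfl⟩ := hy
      exact ⟨u + v, add_mem hu hv, by rw [add_mul]⟩
    | smul c x _ hx =>
      obtain ⟨u, hu, rfl⟩ := hx
      exact ⟨c • u, Submodule.smul_mem _ _ hu, by rw [smul_mul_assoc]⟩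
  | succ n ih =>
    intro M hM x hx
    induction hx using W_induction with
    | mem w hw =>
      rcases List.eq_nil_or_concat w with rfl | ⟨w', j, rfl⟩
      · exfalso
        rw [wt_nil] at hw
        have : co i (wp i (M + 1) (n + 1)) = co i 0 := by rw [← hw]
        rw [co_wp] at this
        cases i <;> simp [co] at this
      · rw [List.concat_eq_append] at hw ⊢
        rw [wt_append, wt_cons, wt_nil, add_zero] at hw
        by_cases hj : j = i
        · subst hj
          refine ⟨word w', ?_, by rw [word_append]; simp⟩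
          rw [← wp_add_wi] at hw
          exact word_mem_W' (add_right_cancel hw)
        · have hj' : j = !i := by cases i <;> cases j <;> simp_all
          subst hj'
          rw [← wp_add_wi'] at hw
          have hw' := word_mem_W' (K := K) (q := q) (add_right_cancel hw)
          obtain ⟨M, rfl⟩ : ∃ M', M = M' + 2 := ⟨M - 2, by omega⟩
          obtain ⟨u1, hu1, h1⟩ := ih _ (by omega) _ hw'
          obtain ⟨u2, hu2, h2⟩ := ih _ (by omega) _ hu1
          obtain ⟨u3, hu3, h3⟩ := ih _ (by omega) _ hu2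
          have hs := serre_gen (K := K) (q := q) i
          have e1 : u3 * gen K q i * gen K q i * gen K q (!i) ∈
              (W (wp i (M + 2) (n + 1)) : Submodule K (UPlus K q)) := by
            have := mul_gen_mem (!i) (mul_gen_mem i (mul_gen_mem i hu3))
            rwa [wp_add_wi, wp_add_wi, wp_add_wi'] at this
          have e2 : u3 * gen K q i * gen K q (!i) * gen K q i ∈
              (W (wp i (M + 2) (n + 1)) : Submodule K (UPlus K q)) := by
            have := mul_gen_mem i (mul_gen_mem (!i) (mul_gen_mem i hu3))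
            rwa [wp_add_wi, wp_add_wi', wp_add_wi] at this
          have e3 : u3 * gen K q (!i) * gen K q i * gen K q i ∈
              (W (wp i (M + 2) (n + 1)) : Submodule K (UPlus K q)) := by
            have := mul_gen_mem i (mul_gen_mem i (mul_gen_mem (!i) hu3))
            rwa [wp_add_wi', wp_add_wi, wp_add_wi] at this
          refine ⟨qThree q • (u3 * gen K q i * gen K q i * gen K q (!i)) -
            qThree q • (u3 * gen K q i * gen K q (!i) * gen K q i) +
            u3 * gen K q (!i) * gen K q i * gen K q i,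
            add_mem (sub_mem (Submodule.smul_mem _ _ e1) (Submodule.smul_mem _ _ e2)) e3, ?_⟩
          have h4 : (word (w' ++ [!i]) : UPlus K q) =
              u3 * gen K q i * gen K q i * gen K q i * gen K q (!i) := by
            rw [word_append, h1, h2, h3]; simp
          rw [h4, ← sub_eq_zero]
          have h5 : u3 * serre q (gen K q i) (gen K q (!i)) = 0 := by rw [hs, mul_zero]
          rw [← h5]
          simp only [serre, mul_add, mul_sub, add_mul, sub_mul, mul_assoc, mul_smul_comm,
            smul_mul_assoc, pow_succ, pow_zero, one_mul]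
          abel
    | zero => exact ⟨0, zero_mem _, by simp⟩
    | add x y _ _ hx hy =>
      obtain ⟨u, hu, rfl⟩ := hx
      obtain ⟨v, hv, rfl⟩ := hy
      exact ⟨u + v, add_mem hu hv, by rw [add_mul]⟩
    | smul c x _ hx =>
      obtain ⟨u, hu, rfl⟩ := hx
      exact ⟨c • u, Submodule.smul_mem _ _ hu, by rw [smul_mul_assoc]⟩

/-- The quantum integer `(j)_{q^2} = 1 + q^2 + ... + q^(2(j-1))`. -/
def qn (q : K) (j : ℕ) : K := ∑ l ∈ Finset.range j, q ^ (2 * l)

theorem qn_succ (q : K) (j : ℕ) : qn q (j + 1) = qn q j + q ^ (2 * j) := by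
  simp [qn, Finset.sum_range_succ]

theorem qn_mul (q : K) (j : ℕ) : (q ^ 2 - 1) * qn q j = q ^ (2 * j) - 1 := by
  induction j with
  | zero => simp [qn]
  | succ j ih => rw [qn_succ, mul_add, ih]; ring

theorem qn_ne_zero (hq1 : ∀ n : ℕ, 0 < n → q ^ n ≠ 1) {j : ℕ} (hj : 0 < j) : qn q j ≠ 0 := by
  intro h
  have h1 := qn_mul q j
  rw [h, mul_zero] at h1
  exact hq1 (2 * j) (by omega) (sub_eq_zero.mp h1.symm)

theorem Kop_gen_self (i : Bool) : Kop i (gen K q i) = q ^ 2 • gen K q i := by
  rw [Kop_gen]; simp only [pr, if_true]; norm_cast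

theorem rD_pow (hq : q ≠ 0) (i : Bool) (j : ℕ) :
    rD hq i (gen K q i ^ (j + 1)) = qn q (j + 1) • gen K q i ^ j := by
  induction j with
  | zero => simp [rD_gen, qn]
  | succ j ih =>
    have h := qn_mul q (j + 1)
    have h' : qn q (j + 1) + q ^ (2 * (j + 1)) = qn q (j + 1) * q ^ 2 + 1 := by
      linear_combination -h
    rw [pow_succ, rD_mul, ih, Kop_gen_self, rD_gen, if_pos rfl, mul_one, qn_succ q (j + 1)]
    rw [smul_mul_assoc, mul_smul_comm, smul_smul, ← pow_succ, h', add_smul, one_smul]

theorem rD_mul_pow (hq : q ≠ 0) (i : Bool) (u : UPlus K q) (j : ℕ) :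
    rD hq i (u * gen K q i ^ (j + 1)) =
      q ^ (2 * (j + 1)) • (rD hq i u * gen K q i ^ (j + 1)) +
      qn q (j + 1) • (u * gen K q i ^ j) := by
  rw [rD_mul, rD_pow, map_pow, Kop_gen_self, smul_pow, mul_smul_comm, mul_smul_comm, ← pow_mul]

theorem mul_pow_eq_zero (hq : q ≠ 0) (hq1 : ∀ n : ℕ, 0 < n → q ^ n ≠ 1) (i : Bool) (n k : ℕ) :
    ∀ j : ℕ, ∀ u ∈ (W (wp i k n) : Submodule K (UPlus K q)),
      rD hq i (u * gen K q i ^ (j + 1)) = 0 → u * gen K q i ^ (j + 1) = 0 := by
  induction k with
  | zero =>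
    intro j u hu h
    have h1 : rD hq i u = 0 := rD_eq_zero hq i hu (co_wp i 0 n)
    rw [rD_mul_pow, h1, zero_mul, smul_zero, zero_add] at h
    have h2 : u * gen K q i ^ j = 0 := by
      rcases smul_eq_zero.mp h with h3 | h3
      · exact absurd h3 (qn_ne_zero hq1 (Nat.succ_pos j))
      · exact h3
    rw [pow_succ, ← mul_assoc, h2, zero_mul]
  | succ k ih =>
    intro j u hu h
    have hu' : rD hq i u ∈ (W (wp i k n) : Submodule K (UPlus K q)) := by
      apply rD_mem hq i
      rw [wi_add_wp]
      exact hu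
    have h1 := h
    rw [rD_mul_pow] at h1
    have h2 : qn q (j + 1) • (u * gen K q i ^ (j + 1)) =
        -(q ^ (2 * (j + 1)) • (rD hq i u * gen K q i ^ (j + 1 + 1))) := by
      have h3 := congrArg (fun z => z * gen K q i) h1
      simp only [add_mul, zero_mul, smul_mul_assoc, mul_assoc, ← pow_succ] at h3
      rw [eq_neg_iff_add_eq_zero, add_comm]
      exact h3
    have h4 : rD hq i u * gen K q i ^ (j + 1 + 1) = 0 := by
      apply ih (j + 1) _ hu'
      have h5 : q ^ (2 * (j + 1)) • rD hq i (rD hq i u * gen K q i ^ (j + 1 + 1)) = 0 := by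
        have h6 := congrArg (rD hq i) h2
        rw [map_smul, h, smul_zero, map_neg, map_smul] at h6
        exact (neg_eq_zero.mp h6.symm)
      rcases smul_eq_zero.mp h5 with h7 | h7
      · exact absurd h7 (pow_ne_zero _ hq)
      · exact h7
    rw [h4, smul_zero, neg_zero] at h2
    rcases smul_eq_zero.mp h2 with h3 | h3
    · exact absurd h3 (qn_ne_zero hq1 (Nat.succ_pos j))
    · exact h3

theorem killed_of_large (hq : q ≠ 0) (hq1 : ∀ n : ℕ, 0 < n → q ^ n ≠ 1) (i : Bool) {M n : ℕ}
    (hM : 2 * n < M) {x : UPlus K q} (hx : x ∈ (W (wp i M n) : Submodule K (UPlus K q)))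
    (h : rD hq i x = 0) : x = 0 := by
  obtain ⟨M, rfl⟩ : ∃ M', M = M' + 1 := ⟨M - 1, by omega⟩
  obtain ⟨u, hu, rfl⟩ := div_right i n M hM x hx
  have h1 := mul_pow_eq_zero hq hq1 i n M 0 u hu
  rw [zero_add, pow_one] at h1
  exact h1 h

/-- The braided adjoint action of `E_i`. -/
noncomputable def ad (i : Bool) (x : UPlus K q) : UPlus K q := gen K q i * x - Kop i x * gen K q i

theorem ad_mem (hq : q ≠ 0) (i : Bool) {m n : ℕ} {x : UPlus K q}
    (hx : x ∈ (W (wp i m n) : Submodule K (UPlus K q))) :
    ad i x ∈ (W (wp i (m + 1) n) : Submodule K (UPlus K q)) := by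
  apply sub_mem
  · rw [← wi_add_wp]; exact gen_mul_mem i hx
  · rw [← wp_add_wi]; exact mul_gen_mem i (Kop_mem i hq hx)

theorem rD_Kop (hq : q ≠ 0) (i j : Bool) (x : UPlus K q) :
    rD hq j (Kop i x) = q ^ pr i j • Kop i (rD hq j x) := by
  have hc : ∀ i j : Bool, ∀ x : UPlus K q, Kop i (Kop j x) = Kop j (Kop i x) := by
    intro i j x
    induction x using induction_left with
    | one => simp only [map_one]
    | add x y hx hy => simp only [map_add, hx, hy]
    | smul c x hx => simp only [map_smul, hx]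
    | mul k x hx => simp only [map_mul, Kop_gen, map_smul, smul_smul, mul_comm, hx]
  induction x using induction_left with
  | one => simp [rD_one]
  | add x y hx hy => simp only [map_add, hx, hy, smul_add]
  | smul c x hx => simp only [map_smul, hx, smul_comm c]
  | mul k x hx =>
    rw [map_mul, Kop_gen, smul_mul_assoc, map_smul, rD_gen_mul, hx, rD_gen_mul, map_add, map_mul,
      Kop_gen, smul_add, smul_add, hc j i x]
    congr 1
    · simp only [smul_mul_assoc, mul_smul_comm, smul_smul, mul_comm]
    · split_ifs with h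
      · subst h; rfl
      · simp

theorem rD_ad (hq : q ≠ 0) (i : Bool) {x : UPlus K q} (h : rD hq i x = 0) :
    rD hq i (ad i x) = 0 := by
  rw [ad, map_sub, rD_gen_mul, h, mul_zero, zero_add, if_pos rfl, rD_mul, rD_Kop, h, map_zero,
    smul_zero, zero_mul, zero_add, rD_gen, if_pos rfl, mul_one, sub_self]

/-- The coefficient sequence. -/
def cc (q : K) (k : ℕ) : ℕ → K
  | 0 => 0
  | j + 1 => 1 - q ^ (4 * (k + j)) + q ^ 2 * cc q k j

theorem cc_eq (q : K) (k j : ℕ) : (1 - q ^ 2) * cc q (k + 1) (j + 1) =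
    (1 - q ^ (2 * (j + 1))) * (1 - q ^ (4 * (k + 1) + 2 * j)) := by
  induction j with
  | zero => simp [cc]
  | succ j ih =>
    rw [cc, mul_add, mul_left_comm, ih]
    ring

theorem cc_ne_zero (hq1 : ∀ n : ℕ, 0 < n → q ^ n ≠ 1) (k j : ℕ) :
    cc q (k + 1) (j + 1) ≠ 0 := by
  intro h
  have h1 := cc_eq q k j
  rw [h, mul_zero] at h1
  rcases mul_eq_zero.mp h1.symm with h2 | h2
  · exact hq1 _ (by omega) (sub_eq_zero.mp h2).symm
  · exact hq1 _ (by omega) (sub_eq_zero.mp h2).symm

theorem lD_ad_iter (hq : q ≠ 0) (i : Bool) {n k : ℕ} {x : UPlus K q}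
    (hx : x ∈ (W (wp i (n + k) n) : Submodule K (UPlus K q))) (h : lD hq i x = 0) (j : ℕ) :
    ((ad i)^[j] x ∈ (W (wp i (n + k + j) n) : Submodule K (UPlus K q))) ∧
    lD hq i ((ad i)^[j + 1] x) = cc q k (j + 1) • (ad i)^[j] x := by
  have hmem : ∀ j, (ad i)^[j] x ∈ (W (wp i (n + k + j) n) : Submodule K (UPlus K q)) := by
    intro j
    induction j with
    | zero => exact hx
    | succ j ih => rw [Function.iterate_succ_apply']; exact ad_mem hq i ih
  refine ⟨hmem j, ?_⟩
  have hK : ∀ j, Kop i ((ad i)^[j] x) = q ^ (2 * (k + j)) • (ad i)^[j] x := by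
    intro j
    rw [Kop_of_mem hq i (hmem j), pw_wp]
    congr 1
    have : (2 * (((n + k + j : ℕ) : ℤ) - n)) = ((2 * (k + j) : ℕ) : ℤ) := by push_cast; ring
    rw [this, zpow_natCast]
  have key : ∀ (y : UPlus K q) (p : ℕ), Kop i y = q ^ (2 * p) • y →
      lD hq i (ad i y) = (1 - q ^ (4 * p)) • y + q ^ 2 • (gen K q i * lD hq i y) -
        q ^ (2 * p) • (lD hq i y * gen K q i) := by
    intro y p hy
    rw [ad, map_sub, lD_gen_mul, if_pos rfl, hy, smul_mul_assoc, map_smul, lD_mul, hy, lD_gen,
      if_pos rfl, mul_one, smul_add, smul_smul]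
    have h2 : q ^ pr i i = q ^ 2 := by simp only [pr, if_true]; norm_cast
    rw [h2, ← pow_add, sub_smul, one_smul]
    have h3 : 2 * p + 2 * p = 4 * p := by ring
    rw [h3]
    abel
  induction j with
  | zero =>
    have h1 := key x k (by simpa using hK 0)
    simp only [zero_add, Function.iterate_one, Function.iterate_zero, id_eq]
    rw [h1, h]
    simp [cc]
  | succ j ih =>
    have h1 := key ((ad i)^[j + 1] x) (k + (j + 1)) (hK (j + 1))
    have hcc : cc q k (j + 1 + 1) = 1 - q ^ (4 * (k + (j + 1))) + q ^ 2 * cc q k (j + 1) := rfl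
    rw [Function.iterate_succ_apply', h1, ih, hcc]
    have h2 : (ad i)^[j + 1] x = gen K q i * (ad i)^[j] x -
        q ^ (2 * (k + j)) • ((ad i)^[j] x * gen K q i) := by
      rw [Function.iterate_succ_apply', ad, hK j, smul_mul_assoc]
    have h3 : q ^ (2 * (k + (j + 1))) = q ^ 2 * q ^ (2 * (k + j)) := by
      rw [← pow_add]; congr 1; ring
    rw [h3]
    have h4 : q ^ 2 • (gen K q i * cc q k (j + 1) • (ad i)^[j] x) -
        (q ^ 2 * q ^ (2 * (k + j))) • (cc q k (j + 1) • (ad i)^[j] x * gen K q i) =
        (q ^ 2 * cc q k (j + 1)) • (ad i)^[j + 1] x := by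
      rw [h2, mul_smul_comm, smul_mul_assoc, smul_sub, smul_smul, smul_smul, smul_smul]
      congr 2
      ring
    rw [add_sub_assoc, h4, ← add_smul]

/-- Elements of weight `(m, n)` with `m > n` killed by both one sided derivations vanish. -/
theorem killed_of_gt (hq : q ≠ 0) (hq1 : ∀ n : ℕ, 0 < n → q ^ n ≠ 1) (i : Bool) {m n : ℕ}
    (hmn : n < m) {x : UPlus K q} (hx : x ∈ (W (wp i m n) : Submodule K (UPlus K q)))
    (hr : rD hq i x = 0) (hl : lD hq i x = 0) : x = 0 := by
  obtain ⟨k, rfl⟩ : ∃ k, m = n + (k + 1) := ⟨m - n - 1, by omega⟩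
  have hR : ∀ j, rD hq i ((ad i)^[j] x) = 0 := by
    intro j
    induction j with
    | zero => exact hr
    | succ j ih => rw [Function.iterate_succ_apply']; exact rD_ad hq i ih
  have hlarge : (ad i)^[n + 1] x = 0 := by
    apply killed_of_large hq hq1 i _ (lD_ad_iter hq i hx hl (n + 1)).1 (hR _)
    omega
  have hdesc : ∀ j, (ad i)^[j] x = 0 → x = 0 := by
    intro j
    induction j with
    | zero => exact fun h => h
    | succ j ih =>
      intro h
      apply ih
      have h1 := (lD_ad_iter hq i hx hl j).2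
      rw [h, map_zero] at h1
      rcases smul_eq_zero.mp h1.symm with h2 | h2
      · exact absurd h2 (cc_ne_zero hq1 k j)
      · exact h2
  exact hdesc _ hlarge

end partB

/-- Nondegeneracy: an element of positive weight killed by both `r_j` is zero. -/
theorem nondeg (hq : q ≠ 0) (hq1 : ∀ n : ℕ, 0 < n → q ^ n ≠ 1) (N : ℕ) :
    ∀ g : ℕ × ℕ, 0 < g.1 + g.2 → g.1 + g.2 = N →
      ∀ x ∈ (W g : Submodule K (UPlus K q)), (∀ j, rD hq j x = 0) → x = 0 := by
  induction N using Nat.strong_induction_on with
  | _ N IH =>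
    intro g hg hN x hx hr
    have hg0 : g ≠ 0 := by rintro rfl; simp at hg
    have hD := Dl_eq_of_killed hq hg0 hx hr (fun g' h1 h2 y hy hry =>
      IH (g'.1 + g'.2) (by omega) g' h1 rfl y hy hry)
    have he := eps_of_mem hg0 hx
    by_cases hex : ex g = 0
    · have hj : ∀ j, epj j x • (1 : UPlus K q) = 0 := by
        intro j
        have h1 := hr j
        rw [rD, LinearMap.comp_apply, hD, map_add, sR_tmul, sR_tmul, epj_one, zero_smul,
          zero_add] at h1
        exact h1
      have hl : ∀ j, lD hq j x = 0 := by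
        intro j
        rw [lD, LinearMap.comp_apply, hD, map_add, sL_tmul, sL_tmul, epj_one, zero_smul,
          add_zero]
        exact hj j
      rcases lt_trichotomy g.1 g.2 with h | h | h
      · apply killed_of_gt hq hq1 true h (x := x) _ (hr _) (hl _)
        exact hx
      · exfalso
        rw [ex, h] at hex
        simp only [sub_self, ne_eq, OfNat.ofNat_ne_zero, not_false_eq_true, zero_pow,
          zero_sub] at hex
        omega
      · apply killed_of_gt hq hq1 false h (x := x) _ (hr _) (hl _)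
        exact hx
    · exact primitive_eq_zero hq hq1 hx hD he hex

end Pool.Agent.U728.Uplus
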