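import Pool.Agent.U728.Uplus.Basic

namespace Pool.Agent.U728.Uplus

open TensorProduct

set_option linter.unusedSimpArgs false
set_option linter.unnecessarySeqFocus false

variable (K : Type*) [Field K] (q : K)

/-- The quotient map onto `U^+`. -/
noncomputable def mkU : FreeAlgebra K Bool →ₐ[K] UPlus K q :=
  RingQuot.mkAlgHom K (SerreRel K q)

theorem mkU_surjective : Function.Surjective (mkU K q) :=
  RingQuot.mkAlgHom_surjective K (SerreRel K q)

/-- The generators of `U^+`. -/
noncomputable def gen (i : Bool) : UPlus K q := mkU K q (FreeAlgebra.ι K i)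

variable {K q}

theorem serre_gen (i : Bool) : serre q (gen K q i) (gen K q (!i)) = 0 := by
  have h : mkU K q (serre q (FreeAlgebra.ι K i) (FreeAlgebra.ι K (!i))) = mkU K q 0 := by
    cases i
    · exact RingQuot.mkAlgHom_rel K (SerreRel.fst (K := K) (q := q))
    · exact RingQuot.mkAlgHom_rel K (SerreRel.snd (K := K) (q := q))
  rw [serre_map, map_zero] at h
  exact h

/-- Universal property of `U^+`. -/
noncomputable def liftU {B : Type*} [Ring B] [Algebra K B] (X : Bool → B)
    (h : ∀ i, serre q (X i) (X (!i)) = 0) : UPlus K q →ₐ[K] B :=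
  RingQuot.liftAlgHom K ⟨FreeAlgebra.lift K X, by
    intro x y hxy
    cases hxy with
    | fst =>
      rw [serre_map, map_zero, FreeAlgebra.lift_ι_apply, FreeAlgebra.lift_ι_apply]
      exact h false
    | snd =>
      rw [serre_map, map_zero, FreeAlgebra.lift_ι_apply, FreeAlgebra.lift_ι_apply]
      exact h true⟩

theorem liftU_mkU {B : Type*} [Ring B] [Algebra K B] (X : Bool → B)
    (h : ∀ i, serre q (X i) (X (!i)) = 0) (x : FreeAlgebra K Bool) :
    liftU X h (mkU K q x) = FreeAlgebra.lift K X x :=
  RingQuot.liftAlgHom_mkAlgHom_apply K (FreeAlgebra.lift K X) _ x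

theorem liftU_gen {B : Type*} [Ring B] [Algebra K B] (X : Bool → B)
    (h : ∀ i, serre q (X i) (X (!i)) = 0) (i : Bool) : liftU X h (gen K q i) = X i := by
  rw [gen, liftU_mkU, FreeAlgebra.lift_ι_apply]

/-- The element of `U^+` given by a word. -/
noncomputable def word (w : List Bool) : UPlus K q := (w.map (gen K q)).prod

@[simp] theorem word_nil : (word [] : UPlus K q) = 1 := rfl

@[simp] theorem word_cons (i : Bool) (w : List Bool) :
    (word (i :: w) : UPlus K q) = gen K q i * word w := by simp [word]

theorem word_append (v w : List Bool) :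
    (word (v ++ w) : UPlus K q) = word v * word w := by simp [word]

theorem adjoin_gen : Algebra.adjoin K (Set.range (gen K q)) = ⊤ := by
  have h1 : Set.range (gen K q) = (mkU K q) '' Set.range (FreeAlgebra.ι K) := by
    rw [← Set.range_comp]
    rfl
  rw [h1, Algebra.adjoin_image, FreeAlgebra.adjoin_range_ι, Algebra.map_top,
    AlgHom.range_eq_top]
  exact mkU_surjective K q

/-- Left induction principle. -/
theorem induction_left {p : UPlus K q → Prop} (one : p 1)
    (add : ∀ x y, p x → p y → p (x + y)) (smul : ∀ (c : K) x, p x → p (c • x))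
    (mul : ∀ i x, p x → p (gen K q i * x)) (x : UPlus K q) : p x := by
  have key : ∀ x : UPlus K q, ∀ y, p y → p (x * y) := by
    intro x
    have hx : x ∈ Algebra.adjoin K (Set.range (gen K q)) := by
      rw [adjoin_gen]; trivial
    induction hx using Algebra.adjoin_induction with
    | mem x hx =>
      obtain ⟨i, rfl⟩ := hx
      exact fun y hy => mul i y hy
    | algebraMap r =>
      intro y hy
      rw [Algebra.algebraMap_eq_smul_one, smul_mul_assoc, one_mul]
      exact smul r y hy
    | add x y _ _ hx hy =>
      intro z hz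
      rw [add_mul]
      exact add _ _ (hx z hz) (hy z hz)
    | mul x y _ _ hx hy =>
      intro z hz
      rw [mul_assoc]
      exact hx _ (hy z hz)
  simpa using key x 1 one

theorem span_word : Submodule.span K (Set.range (word : List Bool → UPlus K q)) = ⊤ := by
  rw [Submodule.eq_top_iff']
  intro x
  induction x using induction_left with
  | one => exact Submodule.subset_span ⟨[], rfl⟩
  | add x y hx hy => exact add_mem hx hy
  | smul c x hx => exact Submodule.smul_mem _ _ hx
  | mul i x hx =>
    induction hx using Submodule.span_induction with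
    | mem x hx =>
      obtain ⟨w, rfl⟩ := hx
      exact Submodule.subset_span ⟨i :: w, word_cons i w⟩
    | zero => simp
    | add x y _ _ hx hy => rw [mul_add]; exact add_mem hx hy
    | smul c x _ hx => rw [mul_smul_comm]; exact Submodule.smul_mem _ _ hx

/-- The bilinear form of the affine Cartan matrix on simple roots. -/
def pr (i j : Bool) : ℤ := if i = j then 2 else -2

theorem pr_comm (i j : Bool) : pr i j = pr j i := by
  cases i <;> cases j <;> rfl

/-- The automorphism `K_i`. -/
noncomputable def Kop (i : Bool) : UPlus K q →ₐ[K] UPlus K q :=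
  liftU (fun j => q ^ pr i j • gen K q j) (by
    intro j
    rw [serre_smul, serre_gen, smul_zero])

theorem Kop_gen (i j : Bool) : Kop i (gen K q j) = q ^ pr i j • gen K q j := by
  rw [Kop, liftU_gen]

/-- The operator `E_i ⊗ 1` on `U^+ ⊗ U^+`. -/
noncomputable def aOp (i : Bool) : Module.End K (UPlus K q ⊗[K] UPlus K q) :=
  TensorProduct.map (LinearMap.mulLeft K (gen K q i)) LinearMap.id

/-- The operator `K_i ⊗ E_i` on `U^+ ⊗ U^+`. -/
noncomputable def bOp (i : Bool) : Module.End K (UPlus K q ⊗[K] UPlus K q) :=
  TensorProduct.map (Kop i).toLinearMap (LinearMap.mulLeft K (gen K q i))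

theorem aOp_tmul (i : Bool) (x y : UPlus K q) :
    aOp i (x ⊗ₜ[K] y) = (gen K q i * x) ⊗ₜ y := rfl

theorem bOp_tmul (i : Bool) (x y : UPlus K q) :
    bOp i (x ⊗ₜ[K] y) = (Kop i x) ⊗ₜ (gen K q i * y) := rfl

theorem bOp_mul_aOp (i j : Bool) :
    bOp i * aOp j = q ^ pr i j • (aOp j * bOp i : Module.End K (UPlus K q ⊗[K] UPlus K q)) := by
  apply TensorProduct.ext'
  intro x y
  simp only [Module.End.mul_apply, LinearMap.smul_apply, aOp_tmul, bOp_tmul, map_mul, Kop_gen,
    smul_mul_assoc, TensorProduct.smul_tmul']

theorem serre_aOp (i : Bool) : serre q (aOp i : Module.End K (UPlus K q ⊗[K] UPlus K q))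
    (aOp (!i)) = 0 := by
  have h := serre_gen (K := K) (q := q) i
  apply TensorProduct.ext'
  intro x y
  have h2 : (serre q (gen K q i) (gen K q (!i)) * x) ⊗ₜ[K] y = 0 := by
    rw [h, zero_mul, TensorProduct.zero_tmul]
  simp only [serre, sub_mul, add_mul, smul_mul_assoc, TensorProduct.sub_tmul,
    TensorProduct.add_tmul, pow_succ, pow_zero, one_mul, mul_assoc] at h2
  simp only [serre, pow_succ, pow_zero, one_mul, LinearMap.sub_apply, LinearMap.add_apply,
    LinearMap.smul_apply, Module.End.mul_apply, aOp_tmul, LinearMap.zero_apply,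
    ← TensorProduct.smul_tmul', mul_assoc] at h2 ⊢
  exact h2

theorem serre_bOp (i : Bool) :
    serre q (bOp i : Module.End K (UPlus K q ⊗[K] UPlus K q)) (bOp (!i)) = 0 := by
  have h := serre_gen (K := K) (q := q) i
  apply TensorProduct.ext'
  intro x y
  have h2 : (Kop i (Kop i (Kop i (Kop (!i) x)))) ⊗ₜ[K] (serre q (gen K q i) (gen K q (!i)) * y)
      = 0 := by
    rw [h, zero_mul, TensorProduct.tmul_zero]
  have hc : ∀ i j : Bool, ∀ x : UPlus K q, Kop i (Kop j x) = Kop j (Kop i x) := by
    intro i j x
    induction x using induction_left with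
    | one => simp only [map_one]
    | add x y hx hy => simp only [map_add, hx, hy]
    | smul c x hx => simp only [map_smul, hx]
    | mul k x hx => simp only [map_mul, Kop_gen, map_smul, smul_smul, mul_comm, hx]
  simp only [serre, sub_mul, add_mul, smul_mul_assoc, TensorProduct.tmul_sub,
    TensorProduct.tmul_add, pow_succ, pow_zero, one_mul, mul_assoc] at h2
  simp only [serre, pow_succ, pow_zero, one_mul, LinearMap.sub_apply, LinearMap.add_apply,
    LinearMap.smul_apply, Module.End.mul_apply, bOp_tmul, LinearMap.zero_apply,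
    ← TensorProduct.smul_tmul', mul_assoc, hc (!i) i, TensorProduct.tmul_smul] at h2 ⊢
  exact h2

end Pool.Agent.U728.Uplus
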