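import Pool.Agent.U728.Uplus.Coprod

namespace Pool.Agent.U728.Uplus

open TensorProduct

set_option linter.unusedSimpArgs false
set_option linter.unnecessarySeqFocus false

variable {K : Type*} [Field K] {q : K}

/-- The weight of a generator. -/
def wi (i : Bool) : ℕ × ℕ := if i then (0, 1) else (1, 0)

/-- The weight of a word. -/
def wt (w : List Bool) : ℕ × ℕ := (w.count false, w.count true)

theorem wt_nil : wt [] = 0 := rfl

theorem wt_cons (i : Bool) (w : List Bool) : wt (i :: w) = wi i + wt w := by
  cases i
  · simp [wt, wi, add_comm]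
  · simp [wt, wi, add_comm]

theorem wt_append (v w : List Bool) : wt (v ++ w) = wt v + wt w := by
  simp [wt]

theorem wt_reverse (w : List Bool) : wt w.reverse = wt w := by
  simp [wt]

theorem length_eq (w : List Bool) : w.length = (wt w).1 + (wt w).2 := by
  induction w with
  | nil => simp [wt]
  | cons i w ih =>
    rw [wt_cons, List.length_cons, ih]
    cases i <;> simp [wi] <;> omega

/-- The grading homomorphism. -/
noncomputable def grad : UPlus K q →ₐ[K] AddMonoidAlgebra (UPlus K q) (ℕ × ℕ) :=
  liftU (fun i => AddMonoidAlgebra.single (wi i) (gen K q i)) (by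
    intro i
    have h := serre_gen (K := K) (q := q) i
    have h2 : AddMonoidAlgebra.single (3 • wi i + wi (!i)) (serre q (gen K q i) (gen K q (!i)))
        = 0 := by rw [h, AddMonoidAlgebra.single_zero]
    rw [← h2]
    have e1 : 2 • wi i + wi (!i) + wi i = 3 • wi i + wi (!i) := by cases i <;> rfl
    have e2 : wi i + wi (!i) + 2 • wi i = 3 • wi i + wi (!i) := by cases i <;> rfl
    have e3 : wi (!i) + 3 • wi i = 3 • wi i + wi (!i) := by cases i <;> rfl
    simp only [serre, AddMonoidAlgebra.single_pow, AddMonoidAlgebra.single_mul_single,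
      AddMonoidAlgebra.smul_single, e1, e2, e3, AddMonoidAlgebra.single_sub,
      AddMonoidAlgebra.single_add])

theorem grad_gen (i : Bool) :
    grad (gen K q i) = AddMonoidAlgebra.single (wi i) (gen K q i) := by
  rw [grad, liftU_gen]

theorem grad_word (w : List Bool) :
    grad (word w : UPlus K q) = AddMonoidAlgebra.single (wt w) (word w) := by
  induction w with
  | nil => rw [word_nil, map_one]; rfl
  | cons i w ih =>
    rw [word_cons, map_mul, grad_gen, ih, AddMonoidAlgebra.single_mul_single, wt_cons]

/-- The projection to the component of weight `g`. -/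
noncomputable def comp (g : ℕ × ℕ) : UPlus K q →ₗ[K] UPlus K q where
  toFun x := (grad x).coeff g
  map_add' x y := by simp
  map_smul' c x := by simp

theorem comp_word (g : ℕ × ℕ) (w : List Bool) :
    comp g (word w : UPlus K q) = if wt w = g then word w else 0 := by
  change (grad (word w : UPlus K q)).coeff g = _
  rw [grad_word]
  simp [Finsupp.single_apply]

theorem linearMap_ext_word {M : Type*} [AddCommGroup M] [Module K M]
    {f g : UPlus K q →ₗ[K] M} (h : ∀ w, f (word w) = g (word w)) : f = g := by
  apply LinearMap.ext_on span_word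
  rintro _ ⟨w, rfl⟩
  exact h w

theorem eq_zero_of_comp {x : UPlus K q} (h : ∀ g, comp g x = 0) : x = 0 := by
  have key : (Finsupp.lsum K (fun _ : ℕ × ℕ => (LinearMap.id : UPlus K q →ₗ[K] UPlus K q))).comp
      ((AddMonoidAlgebra.coeffLinearEquiv K).toLinearMap.comp
        (grad (K := K) (q := q)).toLinearMap) = LinearMap.id := by
    apply linearMap_ext_word
    intro w
    simp [grad_word, AddMonoidAlgebra.coeffLinearEquiv]
  have h0 : (grad x).coeff = 0 := by
    ext g
    exact h g
  have h1 := DFunLike.congr_fun key x
  simp only [LinearMap.comp_apply, AlgHom.toLinearMap_apply, LinearMap.id_apply] at h1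
  rw [← h1]
  have h2 : (AddMonoidAlgebra.coeffLinearEquiv K).toLinearMap (grad x) = 0 := h0
  rw [h2, map_zero]

theorem comp_gen_mul (g : ℕ × ℕ) (i : Bool) (x : UPlus K q) :
    comp (wi i + g) (gen K q i * x) = gen K q i * comp g x := by
  change (grad (gen K q i * x)).coeff (wi i + g) = gen K q i * (grad x).coeff g
  rw [map_mul, grad_gen, AddMonoidAlgebra.coeff_single_mul_add]

theorem comp_mul_gen (g : ℕ × ℕ) (i : Bool) (x : UPlus K q) :
    comp (g + wi i) (x * gen K q i) = comp g x * gen K q i := by
  change (grad (x * gen K q i)).coeff (g + wi i) = (grad x).coeff g * gen K q i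
  rw [map_mul, grad_gen, AddMonoidAlgebra.coeff_mul_single_add]

/-- The weight space of weight `g`. -/
noncomputable def W (g : ℕ × ℕ) : Submodule K (UPlus K q) :=
  Submodule.span K {x | ∃ w : List Bool, wt w = g ∧ word w = x}

theorem word_mem_W (w : List Bool) : (word w : UPlus K q) ∈ (W (wt w) : Submodule K (UPlus K q)) :=
  Submodule.subset_span ⟨w, rfl, rfl⟩

theorem word_mem_W' {w : List Bool} {g : ℕ × ℕ} (h : wt w = g) :
    (word w : UPlus K q) ∈ (W g : Submodule K (UPlus K q)) :=
  Submodule.subset_span ⟨w, h, rfl⟩

theorem comp_mem (g : ℕ × ℕ) (x : UPlus K q) : comp g x ∈ (W g : Submodule K (UPlus K q)) := by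
  have hx : x ∈ Submodule.span K (Set.range (word : List Bool → UPlus K q)) := by
    rw [span_word]; trivial
  induction hx using Submodule.span_induction with
  | mem x hx =>
    obtain ⟨w, rfl⟩ := hx
    rw [comp_word]
    split_ifs with h
    · exact word_mem_W' h
    · exact zero_mem _
  | zero => rw [map_zero]; exact zero_mem _
  | add x y _ _ hx hy => rw [map_add]; exact add_mem hx hy
  | smul c x _ hx => rw [map_smul]; exact Submodule.smul_mem _ _ hx

theorem W_induction {g : ℕ × ℕ}
    {p : (x : UPlus K q) → x ∈ (W g : Submodule K (UPlus K q)) → Prop}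
    (mem : ∀ w (hw : wt w = g), p (word w) (word_mem_W' hw))
    (zero : p 0 (zero_mem _))
    (add : ∀ x y (hx : x ∈ (W g : Submodule K (UPlus K q)))
      (hy : y ∈ (W g : Submodule K (UPlus K q))), p x hx → p y hy → p (x + y) (add_mem hx hy))
    (smul : ∀ (c : K) x (hx : x ∈ (W g : Submodule K (UPlus K q))), p x hx →
      p (c • x) (Submodule.smul_mem _ c hx))
    {x : UPlus K q} (hx : x ∈ (W g : Submodule K (UPlus K q))) : p x hx := by
  induction hx using Submodule.span_induction with
  | mem x hx =>
    obtain ⟨w, hw, rfl⟩ := hx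
    exact mem w hw
  | zero => exact zero
  | add x y hx' hy' hx hy => exact add x y hx' hy' hx hy
  | smul c x hx' hx => exact smul c x hx' hx

theorem comp_of_mem {g : ℕ × ℕ} {x : UPlus K q} (hx : x ∈ (W g : Submodule K (UPlus K q)))
    (g' : ℕ × ℕ) : comp g' x = if g = g' then x else 0 := by
  induction hx using W_induction with
  | mem w hw => rw [comp_word, hw]
  | zero => simp
  | add x y _ _ hx hy => rw [map_add, hx, hy]; split_ifs <;> simp
  | smul c x _ hx => rw [map_smul, hx]; split_ifs <;> simp

theorem gen_mul_mem {g : ℕ × ℕ} {x : UPlus K q} (i : Bool)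
    (hx : x ∈ (W g : Submodule K (UPlus K q))) :
    gen K q i * x ∈ (W (wi i + g) : Submodule K (UPlus K q)) := by
  induction hx using W_induction with
  | mem w hw =>
    rw [← word_cons]
    exact word_mem_W' (by rw [wt_cons, hw])
  | zero => simp
  | add x y _ _ hx hy => rw [mul_add]; exact add_mem hx hy
  | smul c x _ hx => rw [mul_smul_comm]; exact Submodule.smul_mem _ _ hx

theorem mul_gen_mem {g : ℕ × ℕ} {x : UPlus K q} (i : Bool)
    (hx : x ∈ (W g : Submodule K (UPlus K q))) :
    x * gen K q i ∈ (W (g + wi i) : Submodule K (UPlus K q)) := by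
  induction hx using W_induction with
  | mem w hw =>
    have : (word w * gen K q i : UPlus K q) = word (w ++ [i]) := by
      rw [word_append]; simp
    rw [this]
    exact word_mem_W' (by rw [wt_append, hw, wt_cons, wt_nil, add_zero])
  | zero => simp
  | add x y _ _ hx hy => rw [add_mul]; exact add_mem hx hy
  | smul c x _ hx => rw [smul_mul_assoc]; exact Submodule.smul_mem _ _ hx

/-- The pairing of a weight with the simple root `i`. -/
def pw (i : Bool) (g : ℕ × ℕ) : ℤ :=
  if i then 2 * ((g.2 : ℤ) - g.1) else 2 * ((g.1 : ℤ) - g.2)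

theorem pw_zero (i : Bool) : pw i 0 = 0 := by cases i <;> simp [pw]

theorem pw_wi_add (i j : Bool) (g : ℕ × ℕ) : pw i (wi j + g) = pr i j + pw i g := by
  cases i <;> cases j <;> simp [pw, pr, wi] <;> ring

theorem Kop_of_mem (hq : q ≠ 0) (i : Bool) {g : ℕ × ℕ} {x : UPlus K q}
    (hx : x ∈ (W g : Submodule K (UPlus K q))) : Kop i x = q ^ pw i g • x := by
  induction hx using W_induction with
  | mem w hw =>
    subst hw
    induction w with
    | nil => simp [wt_nil, pw_zero]
    | cons j w ih =>
      rw [word_cons, map_mul, Kop_gen, ih, wt_cons, pw_wi_add, zpow_add₀ hq, smul_mul_smul_comm]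
  | zero => simp
  | add x y _ _ hx hy => rw [map_add, hx, hy, smul_add]
  | smul c x _ hx => rw [map_smul, hx, smul_comm]

theorem Kop_mem (i : Bool) {g : ℕ × ℕ} {x : UPlus K q} (hq : q ≠ 0)
    (hx : x ∈ (W g : Submodule K (UPlus K q))) :
    Kop i x ∈ (W g : Submodule K (UPlus K q)) := by
  rw [Kop_of_mem hq i hx]
  exact Submodule.smul_mem _ _ hx

theorem rD_mem_aux (hq : q ≠ 0) (j : Bool) (w : List Bool) :
    (∀ g, wt w = wi j + g → rD hq j (word w : UPlus K q) ∈ (W g : Submodule K (UPlus K q))) ∧
      (w.count j = 0 → rD hq j (word w : UPlus K q) = 0) := by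
  induction w with
  | nil =>
    constructor
    · intro g _
      rw [word_nil, rD_one]
      exact zero_mem _
    · intro _
      rw [word_nil, rD_one]
  | cons i w ih =>
    constructor
    · intro g hg
      rw [word_cons, rD_gen_mul]
      apply add_mem
      · by_cases h0 : w.count j = 0
        · rw [ih.2 h0, mul_zero]; exact zero_mem _
        · obtain ⟨g', hg'⟩ : ∃ g', wt w = wi j + g' := by
            cases j
            · refine ⟨(w.count false - 1, w.count true), ?_⟩
              simp only [wt, wi, Prod.mk_add_mk, Bool.false_eq_true, if_false, Prod.mk.injEq]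
              omega
            · refine ⟨(w.count false, w.count true - 1), ?_⟩
              simp only [wt, wi, Prod.mk_add_mk, if_true, Prod.mk.injEq]
              omega
          have h1 := gen_mul_mem i (ih.1 g' hg')
          have h2 : wi i + g' = g := by
            rw [wt_cons, hg', add_left_comm] at hg
            exact add_left_cancel hg
          rwa [h2] at h1
      · split_ifs with h
        · subst h
          rw [wt_cons] at hg
          apply Kop_mem _ hq
          exact word_mem_W' (add_left_cancel hg)
        · exact zero_mem _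
    · intro h0
      rw [List.count_cons] at h0
      rw [word_cons, rD_gen_mul, ih.2 (by omega), mul_zero, zero_add, if_neg]
      rintro rfl
      simp at h0

theorem rD_mem (hq : q ≠ 0) (j : Bool) {g : ℕ × ℕ} {x : UPlus K q}
    (hx : x ∈ (W (wi j + g) : Submodule K (UPlus K q))) :
    rD hq j x ∈ (W g : Submodule K (UPlus K q)) := by
  induction hx using W_induction with
  | mem w hw => exact (rD_mem_aux hq j w).1 g hw
  | zero => simp
  | add x y _ _ hx hy => rw [map_add]; exact add_mem hx hy
  | smul c x _ hx => rw [map_smul]; exact Submodule.smul_mem _ _ hx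

/-- The coordinate of a weight. -/
def co (j : Bool) (g : ℕ × ℕ) : ℕ := if j then g.2 else g.1

theorem co_wt (j : Bool) (w : List Bool) : co j (wt w) = w.count j := by
  cases j <;> rfl

theorem exists_of_co {j : Bool} {g : ℕ × ℕ} (h : co j g ≠ 0) : ∃ g', g = wi j + g' := by
  cases j
  · refine ⟨(g.1 - 1, g.2), ?_⟩
    simp only [co, Bool.false_eq_true, if_false] at h
    apply Prod.ext
    · simp only [wi, Bool.false_eq_true, if_false, Prod.mk_add_mk]
      omega
    · simp [wi]
  · refine ⟨(g.1, g.2 - 1), ?_⟩
    simp only [co, if_true] at h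
    apply Prod.ext
    · simp [wi]
    · simp only [wi, if_true, Prod.mk_add_mk]
      omega

theorem co_wi_add (j : Bool) (g : ℕ × ℕ) : co j (wi j + g) = 1 + co j g := by
  cases j <;> simp [co, wi]

theorem rD_eq_zero (hq : q ≠ 0) (j : Bool) {g : ℕ × ℕ} {x : UPlus K q}
    (hx : x ∈ (W g : Submodule K (UPlus K q))) (hg : co j g = 0) : rD hq j x = 0 := by
  induction hx using W_induction with
  | mem w hw =>
    apply (rD_mem_aux hq j w).2
    rw [← co_wt, hw, hg]
  | zero => simp
  | add x y _ _ hx hy => rw [map_add, hx, hy, add_zero]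
  | smul c x _ hx => rw [map_smul, hx, smul_zero]

theorem comp_rD (hq : q ≠ 0) (j : Bool) (g : ℕ × ℕ) (x : UPlus K q) :
    comp g (rD hq j x) = rD hq j (comp (wi j + g) x) := by
  have key : (comp g).comp (rD hq j) =
      (rD hq j).comp (comp (wi j + g) : UPlus K q →ₗ[K] UPlus K q) := by
    apply linearMap_ext_word
    intro w
    rw [LinearMap.comp_apply, LinearMap.comp_apply, comp_word]
    by_cases h0 : co j (wt w) = 0
    · rw [rD_eq_zero hq j (word_mem_W w) h0, map_zero, if_neg, map_zero]
      intro h
      rw [h, co_wi_add] at h0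
      omega
    · obtain ⟨g', hg'⟩ := exists_of_co h0
      rw [comp_of_mem (rD_mem hq j (word_mem_W' hg')), hg']
      by_cases h1 : g' = g
      · rw [if_pos h1, if_pos (by rw [h1])]
      · rw [if_neg h1, if_neg (by intro h; exact h1 (add_left_cancel h)), map_zero]
  exact DFunLike.congr_fun key x

end Pool.Agent.U728.Uplus
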